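import Pool.Agent.H53.BN.CPmain

/-!
The Motzkin–Straus inequality for graphs without `(r+1)`-clique, and its consequence for completely
positive kernels.
-/

set_option autoImplicit false

namespace Pool.H53.BN

noncomputable section

variable {V : Type*} [Fintype V] [DecidableEq V] (G : SimpleGraph V) [DecidableRel G.Adj]

/-- the sum of a kernel over the ordered edges -/
def eSum (A : V → V → ℝ) : ℝ := ∑ i, ∑ j, if G.Adj i j then A i j else 0

omit [DecidableEq V] in
theorem sum_sum_comm_symm (A : V → V → ℝ) :
    ∑ i, ∑ j, A i j = ∑ i, ∑ j, A j i := Finset.sum_comm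

theorem shift_mass (f : V → ℝ) (i j : V) (hij : i ≠ j) (hadj : ¬ G.Adj i j) (hfj : 0 ≤ f j)
    (hw : (∑ l, if G.Adj j l then f l else 0) ≤ ∑ l, if G.Adj i l then f l else 0) :
    eSum G (fun a b => f a * f b)
      ≤ eSum G (fun a b => (Function.update (Function.update f i (f i + f j)) j 0) a
        * (Function.update (Function.update f i (f i + f j)) j 0) b) := by
  set d : V → ℝ := fun k => (if k = i then 1 else 0) - (if k = j then 1 else 0) with hd
  obtain ⟨t, ht⟩ : ∃ t, t = f j := ⟨_, rfl⟩
  rw [← ht] at hfj ⊢
  have hf' : ∀ k, (Function.update (Function.update f i (f i + t)) j 0) k = f k + t * d k := by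
    intro k
    by_cases hkj : k = j
    · subst hkj
      simp [hd, ht, Ne.symm hij]
    · by_cases hki : k = i
      · subst hki
        simp [hd, ht, hij]
      · simp [hd, hkj, hki]
  have hds : ∀ c : V → ℝ, ∑ k, c k * d k = c i - c j := by
    intro c
    simp only [hd, mul_sub, Finset.sum_sub_distrib, mul_ite, mul_one, mul_zero,
      Finset.sum_ite_eq', Finset.mem_univ, if_true]
  simp only [hf', eSum]
  have e1 : ∀ a b, (if G.Adj a b then (f a + t * d a) * (f b + t * d b) else 0)
      = (if G.Adj a b then f a * f b else 0) + t * ((if G.Adj a b then f a else 0) * d b)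
        + t * ((if G.Adj a b then f b else 0) * d a)
        + t ^ 2 * ((if G.Adj a b then d a else 0) * d b) := by
    intro a b
    by_cases h : G.Adj a b
    · simp only [if_pos h]; ring
    · simp only [if_neg h]; ring
  simp only [e1, Finset.sum_add_distrib]
  have s1 : ∑ a, ∑ b, t * ((if G.Adj a b then f a else 0) * d b)
      = t * ((∑ l, if G.Adj i l then f l else 0) - ∑ l, if G.Adj j l then f l else 0) := by
    simp only [← Finset.mul_sum, hds]
    congr 1
    rw [Finset.sum_sub_distrib]
    congr 1
    · apply Finset.sum_congr rfl; intro l _; simp only [G.adj_comm]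
    · apply Finset.sum_congr rfl; intro l _; simp only [G.adj_comm]
  have s2 : ∑ a, ∑ b, t * ((if G.Adj a b then f b else 0) * d a)
      = t * ((∑ l, if G.Adj i l then f l else 0) - ∑ l, if G.Adj j l then f l else 0) := by
    have : ∀ a, ∑ b, t * ((if G.Adj a b then f b else 0) * d a)
        = t * ((∑ b, if G.Adj a b then f b else 0) * d a) := by
      intro a
      rw [Finset.sum_mul, Finset.mul_sum]
    simp only [this, ← Finset.mul_sum, hds]
  have s3 : ∑ a, ∑ b, t ^ 2 * ((if G.Adj a b then d a else 0) * d b) = 0 := by
    simp only [← Finset.mul_sum, hds]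
    have : ∀ a, ((if G.Adj a i then d a else 0) - if G.Adj a j then d a else 0)
        = ((if G.Adj a i then 1 else 0) - if G.Adj a j then 1 else 0) * d a := by
      intro a
      split_ifs <;> ring
    simp only [this, hds]
    have h1 : ¬ G.Adj j i := fun h => hadj h.symm
    simp [hadj, h1]
  rw [s1, s2, s3]
  have := mul_nonneg hfj (sub_nonneg.2 hw)
  linarith

/-- Motzkin–Straus -/
theorem motzkin_straus (r : ℕ) (hr : 1 ≤ r) (hG : G.CliqueFree (r + 1)) :
    ∀ (n : ℕ) (f : V → ℝ), (∀ i, 0 ≤ f i) → (Finset.univ.filter fun i => f i ≠ 0).card ≤ n →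
      eSum G (fun a b => f a * f b) ≤ (1 - 1 / (r : ℝ)) * (∑ i, f i) ^ 2 := by
  intro n
  induction n with
  | zero =>
    intro f hf hc
    have h0 : ∀ i, f i = 0 := by
      intro i
      by_contra h
      have : i ∈ Finset.univ.filter fun i => f i ≠ 0 := Finset.mem_filter.2 ⟨Finset.mem_univ i, h⟩
      have := Finset.card_pos.2 ⟨i, this⟩
      omega
    simp [eSum, h0]
  | succ n ih =>
    intro f hf hc
    by_cases hcl : ∀ i j, f i ≠ 0 → f j ≠ 0 → i ≠ j → G.Adj i j
    · -- clique
      set S := Finset.univ.filter fun i => f i ≠ 0 with hS
      have hSc : S.card ≤ r := by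
        by_contra hcon
        push Not at hcon
        obtain ⟨T, hTS, hT⟩ := Finset.exists_subset_card_eq (s := S) (n := r + 1) (by omega)
        apply hG T
        rw [SimpleGraph.isNClique_iff]
        refine ⟨?_, hT⟩
        intro a ha b hb hab
        exact hcl a b (Finset.mem_filter.1 (hTS ha)).2 (Finset.mem_filter.1 (hTS hb)).2 hab
      have e1 : eSum G (fun a b => f a * f b) = (∑ i, f i) ^ 2 - ∑ i, f i ^ 2 := by
        unfold eSum
        have : ∀ a b, (if G.Adj a b then f a * f b else 0)
            = f a * f b - if a = b then f a * f b else 0 := by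
          intro a b
          by_cases hab : a = b
          · subst hab; simp
          · rw [if_neg hab]
            by_cases h : G.Adj a b
            · simp [h]
            · rw [if_neg h]
              by_cases ha : f a = 0
              · simp [ha]
              · by_cases hb : f b = 0
                · simp [hb]
                · exact absurd (hcl a b ha hb hab) h
        simp only [this, Finset.sum_sub_distrib, Finset.sum_ite_eq, Finset.mem_univ, if_true]
        rw [sq, Finset.sum_mul_sum]
        simp only [sq]
      have e2 : (∑ i, f i) ^ 2 ≤ r * ∑ i, f i ^ 2 := by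
        have h1 : ∑ i, f i = ∑ i ∈ S, f i := by
          symm
          apply Finset.sum_subset (Finset.subset_univ S)
          intro x _ hx
          by_contra h
          exact hx (Finset.mem_filter.2 ⟨Finset.mem_univ x, h⟩)
        have h2 : ∑ i, f i ^ 2 = ∑ i ∈ S, f i ^ 2 := by
          symm
          apply Finset.sum_subset (Finset.subset_univ S)
          intro x _ hx
          by_contra h
          refine hx (Finset.mem_filter.2 ⟨Finset.mem_univ x, ?_⟩)
          intro h3; exact h (by rw [h3]; ring)
        rw [h1, h2]
        have h3 := sq_sum_le_card_mul_sum_sq (s := S) (f := f)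
        have h4 : 0 ≤ ∑ i ∈ S, f i ^ 2 := Finset.sum_nonneg fun i _ => sq_nonneg _
        have h5 : (S.card : ℝ) ≤ r := by exact_mod_cast hSc
        nlinarith
      have hr0 : (0 : ℝ) < r := by exact_mod_cast hr
      rw [e1]
      have : (∑ i, f i) ^ 2 / r ≤ ∑ i, f i ^ 2 := by
        rw [div_le_iff₀ hr0]; linarith
      have e3 : (1 - 1 / (r : ℝ)) * (∑ i, f i) ^ 2 = (∑ i, f i) ^ 2 - (∑ i, f i) ^ 2 / r := by
        field_simp
      rw [e3]; linarith
    · push Not at hcl
      obtain ⟨i, j, hi, hj, hij, hadj⟩ := hcl
      -- a general step
      have step : ∀ i j : V, f i ≠ 0 → f j ≠ 0 → i ≠ j → ¬ G.Adj i j →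
          ((∑ l, if G.Adj j l then f l else 0) ≤ ∑ l, if G.Adj i l then f l else 0) →
          eSum G (fun a b => f a * f b) ≤ (1 - 1 / (r : ℝ)) * (∑ i, f i) ^ 2 := by
        intro i j hi hj hij hadj hw
        set f' := Function.update (Function.update f i (f i + f j)) j 0 with hf'
        have h1 := shift_mass G f i j hij hadj (hf j) hw
        have hval : ∀ k, f' k = if k = j then 0 else if k = i then f i + f j else f k := by
          intro k
          simp only [hf', Function.update_apply]
        have hf'0 : ∀ k, 0 ≤ f' k := by
          intro k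
          rw [hval]
          split_ifs
          · exact le_rfl
          · exact add_nonneg (hf i) (hf j)
          · exact hf k
        have hcard : (Finset.univ.filter fun k => f' k ≠ 0).card ≤ n := by
          have hsub : (Finset.univ.filter fun k => f' k ≠ 0)
              ⊆ (Finset.univ.filter fun k => f k ≠ 0).erase j := by
            intro k hk
            rw [Finset.mem_filter] at hk
            rw [Finset.mem_erase, Finset.mem_filter]
            have h2 := hk.2
            rw [hval] at h2
            by_cases hkj : k = j
            · rw [if_pos hkj] at h2; exact absurd rfl h2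
            · refine ⟨hkj, Finset.mem_univ k, ?_⟩
              by_cases hki : k = i
              · rw [hki]; exact hi
              · rw [if_neg hkj, if_neg hki] at h2; exact h2
          have hjm : j ∈ Finset.univ.filter fun k => f k ≠ 0 :=
            Finset.mem_filter.2 ⟨Finset.mem_univ j, hj⟩
          have := Finset.card_le_card hsub
          rw [Finset.card_erase_of_mem hjm] at this
          omega
        have hsum : ∑ k, f' k = ∑ k, f k := by
          have e : ∀ k, f' k = f k + f j * ((if k = i then 1 else 0) - if k = j then 1 else 0) := by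
            intro k
            rw [hval]
            by_cases hkj : k = j
            · subst hkj; simp [Ne.symm hij]
            · by_cases hki : k = i
              · subst hki; simp [hij]
              · simp [hkj, hki]
          simp only [e, Finset.sum_add_distrib, ← Finset.mul_sum, Finset.sum_sub_distrib,
            Finset.sum_ite_eq', Finset.mem_univ, if_true]
          ring
        have h2 := ih f' hf'0 hcard
        rw [hsum] at h2
        exact h1.trans h2
      rcases le_total (∑ l, if G.Adj j l then f l else 0) (∑ l, if G.Adj i l then f l else 0)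
        with h | h
      · exact step i j hi hj hij hadj h
      · exact step j i hj hi (Ne.symm hij) (fun h => hadj h.symm) h

/-- the Motzkin–Straus inequality for weighted completely positive kernels -/
theorem CP_good (r : ℕ) (hr : 1 ≤ r) (hG : G.CliqueFree (r + 1)) (A : V → V → ℝ) (hA : CP A)
    (w : V → ℝ) (hw : ∀ i, 0 ≤ w i) :
    eSum G (fun i j => w i * w j * A i j)
      ≤ (1 - 1 / (r : ℝ)) * ∑ i, ∑ j, w i * w j * A i j := by
  obtain ⟨L, hL, hA⟩ := hA
  have hA' : A = fun i j => (L.map fun f => f i * f j).sum := by
    funext i j; exact hA i j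
  subst hA'
  clear hA
  induction L with
  | nil => simp [eSum]
  | cons f L ih =>
    have ih' := ih (fun e he => hL e (List.mem_cons_of_mem _ he))
    have h1 := motzkin_straus G r hr hG _ (fun i => w i * f i)
      (fun i => mul_nonneg (hw i) (hL f List.mem_cons_self i)) le_rfl
    have e1 : eSum G (fun i j => w i * w j * ((f :: L).map fun f => f i * f j).sum)
        = eSum G (fun i j => w i * f i * (w j * f j))
          + eSum G (fun i j => w i * w j * (L.map fun f => f i * f j).sum) := by
      simp only [eSum, ← Finset.sum_add_distrib, List.map_cons, List.sum_cons]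
      apply Finset.sum_congr rfl; intro i _
      apply Finset.sum_congr rfl; intro j _
      split_ifs <;> ring
    have e2 : ∑ i, ∑ j, w i * w j * ((f :: L).map fun f => f i * f j).sum
        = (∑ i, w i * f i) ^ 2 + ∑ i, ∑ j, w i * w j * (L.map fun f => f i * f j).sum := by
      rw [sq, Finset.sum_mul_sum]
      simp only [← Finset.sum_add_distrib, List.map_cons, List.sum_cons]
      apply Finset.sum_congr rfl; intro i _
      apply Finset.sum_congr rfl; intro j _
      ring
    rw [e1, e2, mul_add]
    linarith

end

end Pool.H53.BN
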