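import Mathlib

/-!
Three-dimensional linear algebra (vectors as triples, symmetric matrices as sextuples) used in the
proof of the Bollobás–Nikiforov conjecture.
-/

set_option autoImplicit false

namespace Pool.H53.BN

noncomputable section

/-- a vector of `ℝ³` -/
@[ext] structure Ve where
  x : ℝ
  y : ℝ
  z : ℝ

/-- a symmetric `3 × 3` matrix `[a b c; b d e; c e f]` -/
@[ext] structure Sy where
  a : ℝ
  b : ℝ
  c : ℝ
  d : ℝ
  e : ℝ
  f : ℝ

def dot (u v : Ve) : ℝ := u.x * v.x + u.y * v.y + u.z * v.z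

def cr (u v : Ve) : Ve :=
  ⟨u.y * v.z - u.z * v.y, u.z * v.x - u.x * v.z, u.x * v.y - u.y * v.x⟩

/-- the pairing with matrix `diag (1, 2, 1)` -/
def jdot (u v : Ve) : ℝ := u.x * v.x + 2 * (u.y * v.y) + u.z * v.z

def bil (M : Sy) (u v : Ve) : ℝ :=
  M.a * (u.x * v.x) + M.b * (u.x * v.y + u.y * v.x) + M.c * (u.x * v.z + u.z * v.x)
    + M.d * (u.y * v.y) + M.e * (u.y * v.z + u.z * v.y) + M.f * (u.z * v.z)

def adj (M : Sy) : Sy :=
  ⟨M.d * M.f - M.e ^ 2, M.c * M.e - M.b * M.f, M.b * M.e - M.c * M.d,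
    M.a * M.f - M.c ^ 2, M.b * M.c - M.a * M.e, M.a * M.d - M.b ^ 2⟩

def det (M : Sy) : ℝ :=
  M.a * (M.d * M.f - M.e ^ 2) + M.b * (M.c * M.e - M.b * M.f) + M.c * (M.b * M.e - M.c * M.d)

def upd (M : Sy) (g : ℝ) (Y : Ve) : Sy :=
  ⟨M.a + g * (Y.x * Y.x), M.b + g * (Y.x * Y.y), M.c + g * (Y.x * Y.z),
    M.d + g * (Y.y * Y.y), M.e + g * (Y.y * Y.z), M.f + g * (Y.z * Y.z)⟩

def mulv (M : Sy) (v : Ve) : Ve :=
  ⟨M.a * v.x + M.b * v.y + M.c * v.z, M.b * v.x + M.d * v.y + M.e * v.z,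
    M.c * v.x + M.e * v.y + M.f * v.z⟩

/-- `u + t v` -/
def lin (u : Ve) (t : ℝ) (v : Ve) : Ve := ⟨u.x + t * v.x, u.y + t * v.y, u.z + t * v.z⟩

/-- the inverse of `diag (1, 2, 1)` -/
def J : Sy := ⟨1, 0, 0, 1 / 2, 0, 1⟩

/-- `diag (1,2,1) v` -/
def Jv (v : Ve) : Ve := ⟨v.x, 2 * v.y, v.z⟩

theorem bil_upd (M : Sy) (g : ℝ) (Y u v : Ve) :
    bil (upd M g Y) u v = bil M u v + g * (dot Y u * dot Y v) := by
  simp only [bil, upd, dot]; ring

theorem bil_comm (M : Sy) (u v : Ve) : bil M u v = bil M v u := by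
  simp only [bil]; ring

theorem bil_lin_left (M : Sy) (u v w : Ve) (t : ℝ) :
    bil M (lin u t v) w = bil M u w + t * bil M v w := by
  simp only [bil, lin]; ring

theorem bil_lin_right (M : Sy) (u v w : Ve) (t : ℝ) :
    bil M w (lin u t v) = bil M w u + t * bil M w v := by
  simp only [bil, lin]; ring

theorem bil_adj_upd (M : Sy) (g : ℝ) (Y u v : Ve) :
    bil (adj (upd M g Y)) u v = bil (adj M) u v + g * bil M (cr Y u) (cr Y v) := by
  simp only [bil, upd, adj, cr]; ring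

theorem det_upd (M : Sy) (g : ℝ) (Y : Ve) :
    det (upd M g Y) = det M + g * bil (adj M) Y Y := by
  simp only [bil, upd, adj, det]; ring

theorem bil_adj_mulv (M : Sy) (u x : Ve) :
    bil (adj M) u (mulv M x) = det M * dot u x := by
  simp only [bil, adj, det, mulv, dot]; ring

theorem bil_cr_mulv (M : Sy) (a u x : Ve) :
    bil M (cr a u) (cr a (mulv M x))
      = bil (adj M) a a * dot u x - bil (adj M) u a * dot a x := by
  simp only [bil, adj, cr, mulv, dot]; ring

theorem sherman (M : Sy) (g : ℝ) (Y u v : Ve) :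
    det M * bil (adj (upd M g Y)) u v
      = det (upd M g Y) * bil (adj M) u v - g * (bil (adj M) Y u * bil (adj M) Y v) := by
  rw [bil_adj_upd, det_upd]
  simp only [bil, adj, det, cr]; ring

theorem dot_Jv (u v : Ve) : dot u (Jv v) = jdot u v := by
  simp only [dot, Jv, jdot]; ring

theorem bil_J (u v : Ve) : bil J u v = u.x * v.x + 1 / 2 * (u.y * v.y) + u.z * v.z := by
  simp only [bil, J]; ring

theorem bil_adj_J (u v : Ve) : bil (adj J) u v = 1 / 2 * jdot u v := by
  simp only [bil, adj, J, jdot]; ring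

theorem det_J : det J = 1 / 2 := by
  simp only [det, J]; norm_num

theorem mulv_J (v : Ve) : mulv J (Jv v) = v := by
  ext <;> simp [mulv, J, Jv]

theorem mulv_upd (M : Sy) (g : ℝ) (Y v : Ve) :
    mulv (upd M g Y) v = lin (mulv M v) (g * dot Y v) Y := by
  ext <;> simp only [mulv, upd, dot, lin] <;> ring

section sums

variable {V : Type*} [DecidableEq V] (g : V → ℝ) (Y : V → Ve)

/-- `M + ∑ g Y Yᵀ` -/
def addH (M : Sy) (D : Finset V) : Sy :=
  ⟨M.a + ∑ l ∈ D, g l * ((Y l).x * (Y l).x), M.b + ∑ l ∈ D, g l * ((Y l).x * (Y l).y),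
    M.c + ∑ l ∈ D, g l * ((Y l).x * (Y l).z), M.d + ∑ l ∈ D, g l * ((Y l).y * (Y l).y),
    M.e + ∑ l ∈ D, g l * ((Y l).y * (Y l).z), M.f + ∑ l ∈ D, g l * ((Y l).z * (Y l).z)⟩

omit [DecidableEq V] in
theorem addH_empty (M : Sy) : addH g Y M ∅ = M := by
  ext <;> simp [addH]

theorem addH_insert (M : Sy) (D : Finset V) (a : V) (ha : a ∉ D) :
    addH g Y M (insert a D) = upd (addH g Y M D) (g a) (Y a) := by
  ext <;> simp only [addH, upd, Finset.sum_insert ha] <;> ring

omit [DecidableEq V] in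
theorem bil_addH (M : Sy) (D : Finset V) (u v : Ve) :
    bil (addH g Y M D) u v = bil M u v + ∑ l ∈ D, g l * (dot (Y l) u * dot (Y l) v) := by
  classical
  induction D using Finset.induction_on with
  | empty => simp [addH_empty]
  | insert a s ha ih =>
    rw [addH_insert _ _ _ _ _ ha, bil_upd, ih, Finset.sum_insert ha]; ring

theorem addH_union (M : Sy) (F N : Finset V) (h : Disjoint F N) :
    addH g Y M (F ∪ N) = addH g Y (addH g Y M F) N := by
  ext <;> simp only [addH, Finset.sum_union h] <;> ring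

omit [DecidableEq V] in
/-- The basic positivity lemma. -/
theorem E_nonneg (M : Sy) (D : Finset V) (u v : Ve) (hg : ∀ l ∈ D, 0 ≤ g l)
    (h0 : 0 ≤ bil (adj M) u v)
    (h1 : ∀ a ∈ D, 0 ≤ bil M (cr (Y a) u) (cr (Y a) v))
    (h2 : ∀ a ∈ D, ∀ b ∈ D, 0 ≤ dot (Y b) (cr (Y a) u) * dot (Y b) (cr (Y a) v)) :
    0 ≤ bil (adj (addH g Y M D)) u v := by
  classical
  induction D using Finset.induction_on with
  | empty => simpa [addH_empty] using h0
  | insert a s ha ih =>
    rw [addH_insert _ _ _ _ _ ha, bil_adj_upd, bil_addH]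
    have e1 := ih (fun l hl => hg l (Finset.mem_insert_of_mem hl))
      (fun b hb => h1 b (Finset.mem_insert_of_mem hb))
      (fun b hb c hc => h2 b (Finset.mem_insert_of_mem hb) c (Finset.mem_insert_of_mem hc))
    have e2 := h1 a (Finset.mem_insert_self a s)
    have e3 : 0 ≤ ∑ l ∈ s, g l * (dot (Y l) (cr (Y a) u) * dot (Y l) (cr (Y a) v)) :=
      Finset.sum_nonneg fun l hl =>
        mul_nonneg (hg l (Finset.mem_insert_of_mem hl))
          (h2 a (Finset.mem_insert_self a s) l (Finset.mem_insert_of_mem hl))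
    have e4 := hg a (Finset.mem_insert_self a s)
    have : 0 ≤ g a * (bil M (cr (Y a) u) (cr (Y a) v)
        + ∑ l ∈ s, g l * (dot (Y l) (cr (Y a) u) * dot (Y l) (cr (Y a) v))) :=
      mul_nonneg e4 (add_nonneg e2 e3)
    linarith

omit [DecidableEq V] in
theorem E_diag_nonneg (D : Finset V) (u : Ve) (hg : ∀ l ∈ D, 0 ≤ g l) :
    0 ≤ bil (adj (addH g Y J D)) u u := by
  apply E_nonneg g Y J D u u hg
  · rw [bil_adj_J]; simp only [jdot]; nlinarith [sq_nonneg u.x, sq_nonneg u.y, sq_nonneg u.z]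
  · intro a _; rw [bil_J]
    nlinarith [sq_nonneg (cr (Y a) u).x, sq_nonneg (cr (Y a) u).y, sq_nonneg (cr (Y a) u).z]
  · intro a _ b _; exact mul_self_nonneg _

omit [DecidableEq V] in
theorem det_pos (D : Finset V) (hg : ∀ l ∈ D, 0 ≤ g l) : 0 < det (addH g Y J D) := by
  classical
  induction D using Finset.induction_on with
  | empty => rw [addH_empty, det_J]; norm_num
  | insert a s ha ih =>
    rw [addH_insert _ _ _ _ _ ha, det_upd]
    have e1 := ih (fun l hl => hg l (Finset.mem_insert_of_mem hl))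
    have e2 := E_diag_nonneg g Y s (Y a) (fun l hl => hg l (Finset.mem_insert_of_mem hl))
    have e3 := mul_nonneg (hg a (Finset.mem_insert_self a s)) e2
    linarith

end sums

end

end Pool.H53.BN
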