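import Pool.Agent.H53.BN.Pos

/-!
The complete positivity of the kernel.
-/

set_option autoImplicit false

namespace Pool.H53.BN

noncomputable section

/-- completely positive kernels -/
def CP {V : Type*} (A : V → V → ℝ) : Prop :=
  ∃ L : List (V → ℝ), (∀ f ∈ L, ∀ i, 0 ≤ f i) ∧ ∀ i j, A i j = (L.map fun f => f i * f j).sum

theorem CP.add_rank {V : Type*} {A B : V → V → ℝ} (hB : CP B) (f : V → ℝ) (hf : ∀ i, 0 ≤ f i)
    (h : ∀ i j, A i j = B i j + f i * f j) : CP A := by
  obtain ⟨L, hL, hL2⟩ := hB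
  refine ⟨f :: L, ?_, ?_⟩
  · intro e he
    rcases List.mem_cons.1 he with rfl | he
    · exact hf
    · exact hL e he
  · intro i j
    rw [h, hL2, List.map_cons, List.sum_cons]; ring

variable {V : Type*} [DecidableEq V] (g : V → ℝ) (y : V → ℝ)

omit [DecidableEq V] in
theorem addH_f_ge (D : Finset V) (hg : ∀ l ∈ D, 0 ≤ g l) :
    1 ≤ (addH g (fun l => Yv (y l)) J D).f := by
  have : 0 ≤ ∑ l ∈ D, g l * ((Yv (y l)).z * (Yv (y l)).z) :=
    Finset.sum_nonneg fun l hl => mul_nonneg (hg l hl) (mul_self_nonneg _)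
  simp only [addH, J]; linarith

omit [DecidableEq V] in
theorem adj_addH_ge (D : Finset V) (hg : ∀ l ∈ D, 0 ≤ g l) (u : Ve) :
    1 / 2 * jdot u u ≤ bil (adj (addH g (fun l => Yv (y l)) J D)) u u := by
  classical
  induction D using Finset.induction_on with
  | empty => rw [addH_empty, bil_adj_J]
  | insert a s ha ih =>
    rw [addH_insert _ _ _ _ _ ha, bil_adj_upd, bil_addH]
    have e1 := ih (fun l hl => hg l (Finset.mem_insert_of_mem hl))
    have e2 : 0 ≤ ∑ l ∈ s, g l * (dot (Yv (y l)) (cr (Yv (y a)) u)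
        * dot (Yv (y l)) (cr (Yv (y a)) u)) :=
      Finset.sum_nonneg fun l hl =>
        mul_nonneg (hg l (Finset.mem_insert_of_mem hl)) (mul_self_nonneg _)
    have e3 : 0 ≤ bil J (cr (Yv (y a)) u) (cr (Yv (y a)) u) := by
      rw [bil_J]
      nlinarith [sq_nonneg (cr (Yv (y a)) u).x, sq_nonneg (cr (Yv (y a)) u).y,
        sq_nonneg (cr (Yv (y a)) u).z]
    have e4 := mul_nonneg (hg a (Finset.mem_insert_self a s)) (add_nonneg e3 e2)
    linarith

theorem block_inv (M : Sy) (u v : Ve) :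
    bil (adj M) u v * ((adj M).a * M.f)
      = bil (adj M) (Yv 0) u * bil (adj M) (Yv 0) v * M.f
        + det M * (adj M).a * (u.z * v.z)
        + det M * ((M.e * u.z - M.f * u.y) * (M.e * v.z - M.f * v.y)) := by
  simp only [bil, adj, det, Yv]; ring

/-- third positivity -/
theorem P3 (F N : Finset V) (hFN : Disjoint F N) (α β : ℝ) (hg : ∀ l ∈ F ∪ N, 0 ≤ g l)
    (hα : 0 ≤ α) (hβ : 0 ≤ β) (hF : ∀ l ∈ F, β < α * y l)
    (hN : ∀ l ∈ N, α * y l ≤ β) (hy : ∀ l ∈ F ∪ N, 0 ≤ y l) :
    0 ≤ (addH g (fun l => Yv (y l)) J (F ∪ N)).e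
          * (mulv (addH g (fun l => Yv (y l)) J F) (Jv (Xv α β))).z
        - (addH g (fun l => Yv (y l)) J (F ∪ N)).f
          * (mulv (addH g (fun l => Yv (y l)) J F) (Jv (Xv α β))).y := by
  have hgF : ∀ l ∈ F, 0 ≤ g l := fun l hl => hg l (Finset.mem_union_left _ hl)
  have hgN : ∀ l ∈ N, 0 ≤ g l := fun l hl => hg l (Finset.mem_union_right _ hl)
  have hyF : ∀ l ∈ F, 0 ≤ y l := fun l hl => hy l (Finset.mem_union_left _ hl)
  have hyN : ∀ l ∈ N, 0 ≤ y l := fun l hl => hy l (Finset.mem_union_right _ hl)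
  set u : Ve := ⟨0, -1, 0⟩ with hu
  have e0 : ∀ (M : Sy) (w : Ve), M.e * w.z - M.f * w.y = bil M (cr (Yv 0) u) (cr (Yv 0) w) := by
    intro M w; simp only [bil, cr, Yv, hu]; ring
  rw [e0, addH_union _ _ _ _ _ hFN, bil_addH]
  apply add_nonneg
  · rw [bil_cr_mulv, dot_Jv, dot_Jv]
    set v : Ve := ⟨2 * (α * β), β ^ 2, 0⟩ with hv
    have main : 0 ≤ bil (adj (addH g (fun l => Yv (y l)) J F)) (Yv 0) v := by
      apply E_nonneg g _ J F _ _ hgF
      · rw [bil_adj_J]
        have e : jdot (Yv 0) v = 2 * (α * β) := by simp only [jdot, Yv, hv]; ring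
        rw [e]; positivity
      · intro l hl
        have e : bil J (cr (Yv (y l)) (Yv 0)) (cr (Yv (y l)) v)
            = y l * β * (α * (y l) ^ 3 + α * y l + (α * y l - β)) := by
          simp only [bil, J, cr, Yv, hv]; ring
        rw [e]
        have h1 := hF l hl
        have h2 := hyF l hl
        have h3 : 0 ≤ α * y l - β := by linarith
        positivity
      · intro f hf l hl
        have e : dot (Yv (y l)) (cr (Yv (y f)) (Yv 0)) * dot (Yv (y l)) (cr (Yv (y f)) v)
            = y f * y l * (y l - y f) ^ 2 * β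
              * (y l * (α * y f - β) + y f * (α * y l - β)) := by
          simp only [dot, cr, Yv, hv]; ring
        rw [e]
        have h1 := hF l hl
        have h2 := hyF l hl
        have h3 : 0 ≤ α * y l - β := by linarith
        have h4 := hF f hf
        have h5 := hyF f hf
        have h6 : 0 ≤ α * y f - β := by linarith
        positivity
    have e : bil (adj (addH g (fun l => Yv (y l)) J F)) (Yv 0) v
        = bil (adj (addH g (fun l => Yv (y l)) J F)) (Yv 0) (Yv 0) * jdot u (Xv α β)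
        - bil (adj (addH g (fun l => Yv (y l)) J F)) u (Yv 0) * jdot (Yv 0) (Xv α β) := by
      generalize adj (addH g (fun l => Yv (y l)) J F) = A
      simp only [bil, Yv, hv, hu, jdot, Xv]; ring
    rw [← e]; exact main
  · apply Finset.sum_nonneg
    intro a ha
    apply mul_nonneg (hgN a ha)
    have e1 : dot (Yv (y a)) (cr (Yv 0) (mulv (addH g (fun l => Yv (y l)) J F) (Jv (Xv α β))))
        = dot (cr (Yv (y a)) (Yv 0)) (mulv (addH g (fun l => Yv (y l)) J F) (Jv (Xv α β))) := by
      generalize mulv (addH g (fun l => Yv (y l)) J F) (Jv (Xv α β)) = w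
      simp only [dot, cr]; ring
    have e2 : dot (Yv (y a)) (cr (Yv 0) u) = -(y a) ^ 2 := by
      simp only [dot, cr, Yv, hu]; ring
    have e3 : dot (cr (Yv (y a)) (Yv 0)) (Xv α β) = -(y a * (y a * (α * β) + α ^ 2)) := by
      simp only [dot, cr, Yv, Xv]; ring
    rw [e1, dot_mulv_addH, e2, e3]
    have h1 := hN a ha
    have h2 := hyN a ha
    have h3 : ∑ l ∈ F, g l * (jdot (Yv (y l)) (Xv α β) * dot (Yv (y l)) (cr (Yv (y a)) (Yv 0)))
        ≤ 0 := by
      apply Finset.sum_nonpos
      intro l hl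
      rw [jdot_YX, dot_cr_Y]
      have h4 := hF l hl
      have h5 := hyF l hl
      have h6 : 0 ≤ y l - y a := by
        by_contra hcon
        push Not at hcon
        have h9 : α * y l ≤ α * y a := mul_le_mul_of_nonneg_left (by linarith) hα
        linarith
      have h7 : 0 ≤ g l * ((β - α * y l) ^ 2 * (y a * (y l - y a) * y l)) :=
        mul_nonneg (hgF l hl) (by positivity)
      nlinarith
    have h4 : 0 ≤ y a * (y a * (α * β) + α ^ 2) := by positivity
    nlinarith [sq_nonneg (y a)]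

end

end Pool.H53.BN
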