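import Pool.Agent.H53.BN.CP

/-!
The kernel of the proof is completely positive.
-/

set_option autoImplicit false

namespace Pool.H53.BN

noncomputable section

variable {V : Type*} [DecidableEq V] (R : Finset V) (g : V → ℝ) (y α β : V → ℝ)

/-- the vector of a vertex -/
def vec (p : V) : Ve := if p ∈ R then Yv (y p) else Xv (α p) (β p)

/-- the extra coordinate of the vertex `p` along `l ∈ R` -/
def gam (l p : V) : ℝ :=
  if p = l then 1 / g l else if p ∈ R then 0 else -(max (α p * y l - β p) 0) ^ 2

/-- the vector of a vertex after the vertices of `D` have been eliminated -/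
def Zd (D : Finset V) (p : V) : Ve :=
  ⟨(vec R y α β p).x - ∑ l ∈ D, g l * gam R g y α β l p * (Yv (y l)).x,
   (vec R y α β p).y - ∑ l ∈ D, g l * gam R g y α β l p * (Yv (y l)).y,
   (vec R y α β p).z - ∑ l ∈ D, g l * gam R g y α β l p * (Yv (y l)).z⟩

abbrev Md (D : Finset V) : Sy := addH g (fun l => Yv (y l)) J D

/-- the kernel after the vertices of `D` have been eliminated -/
def Cd (D : Finset V) (p q : V) : ℝ :=
  bil (adj (Md g y D)) (Zd R g y α β D p) (Zd R g y α β D q) / det (Md g y D)
    + ∑ l ∈ R \ D, g l * (gam R g y α β l p * gam R g y α β l q)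

theorem Zd_empty (p : V) : Zd R g y α β ∅ p = vec R y α β p := by
  ext <;> simp [Zd]

theorem Zd_insert (D : Finset V) (a : V) (ha : a ∉ D) (p : V) :
    Zd R g y α β (insert a D) p
      = lin (Zd R g y α β D p) (-(g a * gam R g y α β a p)) (Yv (y a)) := by
  ext <;> simp only [Zd, lin, Finset.sum_insert ha] <;> ring

theorem step_identity (M : Sy) (G ga gb : ℝ) (Y u v : Ve) (hd : det M ≠ 0)
    (hd' : det (upd M G Y) ≠ 0) :
    bil (adj M) u v / det M + G * (ga * gb)
      = bil (adj (upd M G Y)) (lin u (-(G * ga)) Y) (lin v (-(G * gb)) Y) / det (upd M G Y)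
        + G / (det M * det (upd M G Y)) * ((bil (adj M) Y u + det M * ga)
          * (bil (adj M) Y v + det M * gb)) := by
  have h1 := sherman M G Y u v
  have h2 := sherman M G Y Y u
  have h3 := sherman M G Y Y v
  have h4 := sherman M G Y Y Y
  have h5 := det_upd M G Y
  have hY : ∀ w, det M * bil (adj (upd M G Y)) Y w = det M * bil (adj M) Y w := by
    intro w
    rw [sherman, det_upd]; ring
  have hY' : ∀ w, bil (adj (upd M G Y)) Y w = bil (adj M) Y w := fun w =>
    mul_left_cancel₀ hd (hY w)
  rw [bil_lin_left, bil_lin_right, bil_lin_right, hY', hY',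
    bil_comm (adj (upd M G Y)) u Y, hY']
  have h6 : bil (adj (upd M G Y)) u v
      = (det (upd M G Y) * bil (adj M) u v - G * (bil (adj M) Y u * bil (adj M) Y v)) / det M := by
    rw [← h1]; field_simp
  rw [h6]
  set d' := det (upd M G Y) with hd'def
  set d := det M with hddef
  set E := bil (adj M) Y Y
  have h7 : E * G = d' - d := by rw [h5]; ring
  field_simp
  linear_combination (-(ga * gb * G * d)) * h7

theorem Cd_step (D : Finset V) (a : V) (haR : a ∈ R) (haD : a ∉ D) (hg : ∀ l ∈ R, 0 < g l)
    (hDR : D ⊆ R) (p q : V) :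
    Cd R g y α β D p q = Cd R g y α β (insert a D) p q
      + g a / (det (Md g y D) * det (Md g y (insert a D)))
        * ((bil (adj (Md g y D)) (Yv (y a)) (Zd R g y α β D p)
              + det (Md g y D) * gam R g y α β a p)
          * (bil (adj (Md g y D)) (Yv (y a)) (Zd R g y α β D q)
              + det (Md g y D) * gam R g y α β a q)) := by
  have hd : 0 < det (Md g y D) := det_pos g _ D (fun l hl => (hg l (hDR hl)).le)
  have hins : Md g y (insert a D) = upd (Md g y D) (g a) (Yv (y a)) :=
    addH_insert g (fun l => Yv (y l)) J D a haD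
  have hd' : 0 < det (Md g y (insert a D)) := det_pos g _ _ (fun l hl => by
    rcases Finset.mem_insert.1 hl with rfl | hl
    · exact (hg _ haR).le
    · exact (hg l (hDR hl)).le)
  have hs : R \ D = insert a (R \ insert a D) := by
    ext l
    simp only [Finset.mem_sdiff, Finset.mem_insert]
    constructor
    · rintro ⟨h1, h2⟩
      by_cases h : l = a
      · exact Or.inl h
      · exact Or.inr ⟨h1, by rintro (h3 | h3) <;> contradiction⟩
    · rintro (rfl | ⟨h1, h2⟩)
      · exact ⟨haR, haD⟩
      · exact ⟨h1, fun h3 => h2 (Or.inr h3)⟩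
  have hs2 : a ∉ R \ insert a D := by simp
  rw [hins] at hd' ⊢
  unfold Cd
  rw [hins, hs, Finset.sum_insert hs2, Zd_insert _ _ _ _ _ _ _ haD, Zd_insert _ _ _ _ _ _ _ haD]
  have := step_identity (Md g y D) (g a) (gam R g y α β a p) (gam R g y α β a q) (Yv (y a))
    (Zd R g y α β D p) (Zd R g y α β D q) hd.ne' hd'.ne'
  linarith

/-- the vector of a vertex outside `R` -/
theorem Zd_out (D : Finset V) (hDR : D ⊆ R) (p : V) (hp : p ∉ R) :
    Zd R g y α β D p
      = mulv (Md g y (D.filter fun l => β p < α p * y l)) (Jv (Xv (α p) (β p))) := by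
  induction D using Finset.induction_on with
  | empty => simp [Zd_empty, vec, hp, Md, addH_empty, mulv_J]
  | insert a s ha ih =>
    have haR : a ∈ R := hDR (Finset.mem_insert_self a s)
    have hpa : p ≠ a := fun h => hp (h ▸ haR)
    rw [Zd_insert _ _ _ _ _ _ _ ha, ih (fun l hl => hDR (Finset.mem_insert_of_mem hl)),
      Finset.filter_insert]
    by_cases hc : β p < α p * y a
    · rw [if_pos hc]
      have hns : a ∉ s.filter fun l => β p < α p * y l := fun h => ha (Finset.mem_filter.1 h).1
      have hins : Md g y (insert a (s.filter fun l => β p < α p * y l))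
          = upd (Md g y (s.filter fun l => β p < α p * y l)) (g a) (Yv (y a)) :=
        addH_insert g (fun l => Yv (y l)) J _ a hns
      rw [hins, mulv_upd, dot_Jv, jdot_YX]
      have hgam : gam R g y α β a p = -(β p - α p * y a) ^ 2 := by
        unfold gam
        rw [if_neg hpa, if_neg hp, max_eq_left (by linarith)]; ring
      rw [hgam]
      congr 1; ring
    · rw [if_neg hc]
      have hgam : gam R g y α β a p = 0 := by
        unfold gam
        rw [if_neg hpa, if_neg hp, max_eq_right (by push Not at hc; linarith)]; ring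
      rw [hgam]
      ext <;> simp [lin]

theorem Zd_mem (D : Finset V) (hDR : D ⊆ R) (hg : ∀ l ∈ R, 0 < g l) (p : V) (hp : p ∈ D) :
    Zd R g y α β D p = ⟨0, 0, 0⟩ := by
  have hpR := hDR hp
  have hv : vec R y α β p = Yv (y p) := by simp [vec, hpR]
  have key : ∀ c : V → ℝ, ∑ l ∈ D, g l * gam R g y α β l p * c l = c p := by
    intro c
    rw [Finset.sum_eq_single p]
    · simp only [gam, if_true]
      have := (hg p hpR).ne'
      field_simp
    · intro l _ hl
      simp only [gam, if_neg (Ne.symm hl), if_pos hpR]; ring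
    · intro h; exact absurd hp h
  ext
  · simp only [Zd, hv, key fun l => (Yv (y l)).x, sub_self]
  · simp only [Zd, hv, key fun l => (Yv (y l)).y, sub_self]
  · simp only [Zd, hv, key fun l => (Yv (y l)).z, sub_self]

theorem Zd_R (D : Finset V) (p : V) (hp : p ∈ R) (hpD : p ∉ D) :
    Zd R g y α β D p = Yv (y p) := by
  have hv : vec R y α β p = Yv (y p) := by simp [vec, hp]
  have key : ∀ c : V → ℝ, ∑ l ∈ D, g l * gam R g y α β l p * c l = 0 := by
    intro c
    apply Finset.sum_eq_zero
    intro l hl
    have : p ≠ l := fun h => hpD (h ▸ hl)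
    simp only [gam, if_neg this, if_pos hp]; ring
  ext
  · simp only [Zd, hv, key fun l => (Yv (y l)).x, sub_zero]
  · simp only [Zd, hv, key fun l => (Yv (y l)).y, sub_zero]
  · simp only [Zd, hv, key fun l => (Yv (y l)).z, sub_zero]

/-- the rows are nonnegative -/
theorem row_nonneg (D : Finset V) (hDR : D ⊆ R) (hg : ∀ l ∈ R, 0 < g l)
    (hy : ∀ l ∈ R, 0 ≤ y l) (hα : ∀ p, p ∉ R → 0 ≤ α p) (hβ : ∀ p, p ∉ R → 0 ≤ β p)
    (a : V) (haR : a ∈ R) (haD : a ∉ D) (hD : ∀ l ∈ D, y a ≤ y l)
    (hmax : ∀ l ∈ R \ D, y l ≤ y a) (p : V) :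
    0 ≤ bil (adj (Md g y D)) (Yv (y a)) (Zd R g y α β D p)
      + det (Md g y D) * gam R g y α β a p := by
  have hgD : ∀ l ∈ D, 0 ≤ g l := fun l hl => (hg l (hDR hl)).le
  have hd : 0 < det (Md g y D) := det_pos g _ D hgD
  by_cases hp : p ∈ R
  · by_cases hpD : p ∈ D
    · rw [Zd_mem R g y α β D hDR hg p hpD]
      have h1 : p ≠ a := fun h => haD (h ▸ hpD)
      simp only [gam, if_neg h1, if_pos hp, bil]
      norm_num
    · rw [Zd_R R g y α β D p hp hpD]
      have h1 : 0 ≤ bil (adj (Md g y D)) (Yv (y a)) (Yv (y p)) :=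
        P1 g y D (y a) (y p) hgD (hy p hp) (hmax p (Finset.mem_sdiff.2 ⟨hp, hpD⟩)) hD
      have h2 : 0 ≤ gam R g y α β a p := by
        unfold gam
        split_ifs with h
        · exact (one_div_pos.2 (hg a haR)).le
        · exact le_rfl
      have := mul_nonneg hd.le h2
      linarith
  · rw [Zd_out R g y α β D hDR p hp]
    have hpa : p ≠ a := fun h => hp (h ▸ haR)
    by_cases hc : β p < α p * y a
    · have hall : D.filter (fun l => β p < α p * y l) = D := by
        apply Finset.filter_true_of_mem
        intro l hl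
        have := mul_le_mul_of_nonneg_left (hD l hl) (hα p hp)
        linarith
      rw [hall, bil_adj_mulv, dot_Jv, jdot_YX]
      have hgam : gam R g y α β a p = -(β p - α p * y a) ^ 2 := by
        unfold gam
        rw [if_neg hpa, if_neg hp, max_eq_left (by linarith)]; ring
      rw [hgam]
      apply le_of_eq; ring
    · have hgam : gam R g y α β a p = 0 := by
        unfold gam
        rw [if_neg hpa, if_neg hp, max_eq_right (by push Not at hc; linarith)]; ring
      rw [hgam, mul_zero, add_zero]
      have hun : D.filter (fun l => β p < α p * y l) ∪ D.filter (fun l => ¬ β p < α p * y l) = D :=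
        Finset.filter_union_filter_not_eq _ D
      have hdis : Disjoint (D.filter fun l => β p < α p * y l)
          (D.filter fun l => ¬ β p < α p * y l) :=
        Finset.disjoint_filter_filter_not D D _
      have := P2 g y (D.filter fun l => β p < α p * y l) (D.filter fun l => ¬ β p < α p * y l)
        hdis (α p) (β p) (y a) (by rw [hun]; exact hgD) (hα p hp) (hβ p hp) (hy a haR)
        (fun l hl => (Finset.mem_filter.1 hl).2)
        (fun l hl => by have := (Finset.mem_filter.1 hl).2; push Not at this; exact this)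
        (fun l hl => hD l (Finset.mem_filter.1 hl).1)
      rw [hun] at this
      exact this

/-- the final kernel is completely positive -/
theorem final_CP (hg : ∀ l ∈ R, 0 < g l) (hy : ∀ l ∈ R, 0 ≤ y l)
    (hα : ∀ p, p ∉ R → 0 ≤ α p) (hβ : ∀ p, p ∉ R → 0 ≤ β p) : CP (Cd R g y α β R) := by
  have hgR : ∀ l ∈ R, 0 ≤ g l := fun l hl => (hg l hl).le
  set M := Md g y R with hM
  have hd : 0 < det M := det_pos g _ R hgR
  have hf : 1 ≤ M.f := addH_f_ge g y R hgR
  have hA : 0 < (adj M).a := by
    have h1 := adj_addH_ge g y R hgR (Yv 0)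
    have h2 : bil (adj (addH g (fun l => Yv (y l)) J R)) (Yv 0) (Yv 0) = (adj M).a := by
      change bil (adj M) (Yv 0) (Yv 0) = _
      simp only [bil, Yv]; ring
    rw [h2, jdot_YY] at h1
    linarith
  have hZ : ∀ p, p ∈ R → Zd R g y α β R p = ⟨0, 0, 0⟩ := fun p hp =>
    Zd_mem R g y α β R (Finset.Subset.refl _) hg p hp
  set F : V → Finset V := fun p => R.filter fun l => β p < α p * y l with hF
  set N : V → Finset V := fun p => R.filter fun l => ¬ β p < α p * y l with hN
  have hun : ∀ p, F p ∪ N p = R := fun p => Finset.filter_union_filter_not_eq _ R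
  have hdis : ∀ p, Disjoint (F p) (N p) := fun p => Finset.disjoint_filter_filter_not R R _
  have hZ2 : ∀ p, p ∉ R → Zd R g y α β R p = mulv (Md g y (F p)) (Jv (Xv (α p) (β p))) :=
    fun p hp => Zd_out R g y α β R (Finset.Subset.refl _) p hp
  have hFm : ∀ p, ∀ l ∈ F p, β p < α p * y l := fun p l hl => (Finset.mem_filter.1 hl).2
  have hNm : ∀ p, ∀ l ∈ N p, α p * y l ≤ β p := fun p l hl => by
    have := (Finset.mem_filter.1 hl).2; push Not at this; exact this
  -- the three functions
  set f1 : V → ℝ := fun p => bil (adj M) (Yv 0) (Zd R g y α β R p) / √(det M * (adj M).a) with hf1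
  set f2 : V → ℝ := fun p => (Zd R g y α β R p).z / √(M.f) with hf2
  set f3 : V → ℝ := fun p => (M.e * (Zd R g y α β R p).z - M.f * (Zd R g y α β R p).y)
    / √(M.f * (adj M).a) with hf3
  refine ⟨[f1, f2, f3], ?_, ?_⟩
  · intro f hfm p
    by_cases hp : p ∈ R
    · have h0 := hZ p hp
      simp only [List.mem_cons, List.not_mem_nil, or_false] at hfm
      rcases hfm with rfl | rfl | rfl
      · simp only [hf1, h0, bil]; norm_num
      · simp only [hf2, h0]; norm_num
      · simp only [hf3, h0]; norm_num
    · simp only [List.mem_cons, List.not_mem_nil, or_false] at hfm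
      rcases hfm with rfl | rfl | rfl
      · apply div_nonneg _ (Real.sqrt_nonneg _)
        rw [hZ2 p hp]
        have := P2 g y (F p) (N p) (hdis p) (α p) (β p) 0 (by rw [hun]; exact hgR) (hα p hp)
          (hβ p hp) le_rfl (hFm p) (hNm p) (fun l hl => hy l (Finset.mem_filter.1 hl).1)
        rw [hun] at this
        exact this
      · apply div_nonneg _ (Real.sqrt_nonneg _)
        rw [hZ2 p hp]
        have e : (mulv (Md g y (F p)) (Jv (Xv (α p) (β p)))).z
            = dot ⟨0, 0, 1⟩ (mulv (Md g y (F p)) (Jv (Xv (α p) (β p)))) := by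
          simp only [dot]; ring
        rw [e, dot_mulv_addH]
        apply add_nonneg
        · simp only [dot, Xv]; nlinarith [sq_nonneg (α p)]
        · apply Finset.sum_nonneg
          intro l hl
          rw [jdot_YX]
          apply mul_nonneg (hgR l (Finset.mem_filter.1 hl).1)
          simp only [dot, Yv]
          have : (β p - α p * y l) ^ 2 * (1 * 0 + y l * 0 + y l ^ 2 * 1)
              = (β p - α p * y l) ^ 2 * y l ^ 2 := by ring
          rw [this]; positivity
      · apply div_nonneg _ (Real.sqrt_nonneg _)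
        rw [hZ2 p hp]
        have := P3 g y (F p) (N p) (hdis p) (α p) (β p) (by rw [hun]; exact hgR) (hα p hp)
          (hβ p hp) (hFm p) (hNm p) (by rw [hun]; exact hy)
        rw [hun] at this
        exact this
  · intro p q
    have h1 := block_inv M (Zd R g y α β R p) (Zd R g y α β R q)
    have s1 : √(det M * (adj M).a) * √(det M * (adj M).a) = det M * (adj M).a :=
      Real.mul_self_sqrt (by positivity)
    have s2 : √(M.f) * √(M.f) = M.f := Real.mul_self_sqrt (by linarith)
    have s3 : √(M.f * (adj M).a) * √(M.f * (adj M).a) = M.f * (adj M).a :=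
      Real.mul_self_sqrt (by positivity)
    simp only [List.map_cons, List.map_nil, List.sum_cons, List.sum_nil, add_zero, hf1, hf2, hf3,
      Cd, Finset.sdiff_self, Finset.sum_empty]
    rw [div_mul_div_comm, div_mul_div_comm, div_mul_div_comm, s1, s2, s3]
    have hf0 : M.f ≠ 0 := by linarith
    have hA0 := hA.ne'
    have hd0 := hd.ne'
    rw [← hM]
    field_simp
    linear_combination h1

/-- every intermediate kernel is completely positive -/
theorem Cd_CP (hg : ∀ l ∈ R, 0 < g l) (hy : ∀ l ∈ R, 0 ≤ y l)
    (hα : ∀ p, p ∉ R → 0 ≤ α p) (hβ : ∀ p, p ∉ R → 0 ≤ β p) (n : ℕ) :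
    ∀ D : Finset V, D ⊆ R → (R \ D).card = n → (∀ l ∈ D, ∀ m ∈ R \ D, y m ≤ y l) →
      CP (Cd R g y α β D) := by
  induction n with
  | zero =>
    intro D hDR hc _
    have : D = R := by
      apply Finset.Subset.antisymm hDR
      rw [Finset.card_eq_zero, Finset.sdiff_eq_empty_iff_subset] at hc
      exact hc
    rw [this]
    exact final_CP R g y α β hg hy hα hβ
  | succ n ih =>
    intro D hDR hc hD
    have hne : (R \ D).Nonempty := by
      rw [← Finset.card_pos, hc]; omega
    obtain ⟨a, ha, hmax⟩ := Finset.exists_max_image (R \ D) y hne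
    have haR := (Finset.mem_sdiff.1 ha).1
    have haD := (Finset.mem_sdiff.1 ha).2
    have hsub : insert a D ⊆ R := Finset.insert_subset haR hDR
    have hcard : (R \ insert a D).card = n := by
      have h1 : R \ D = insert a (R \ insert a D) := by
        ext l
        simp only [Finset.mem_sdiff, Finset.mem_insert]
        constructor
        · rintro ⟨h1, h2⟩
          by_cases h : l = a
          · exact Or.inl h
          · exact Or.inr ⟨h1, by rintro (h3 | h3) <;> contradiction⟩
        · rintro (rfl | ⟨h1, h2⟩)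
          · exact ⟨haR, haD⟩
          · exact ⟨h1, fun h3 => h2 (Or.inr h3)⟩
      have h2 : a ∉ R \ insert a D := by simp
      rw [h1, Finset.card_insert_of_notMem h2] at hc
      omega
    have hup : ∀ l ∈ insert a D, ∀ m ∈ R \ insert a D, y m ≤ y l := by
      intro l hl m hm
      have hmR := (Finset.mem_sdiff.1 hm).1
      have hmD : m ∉ D := fun h => (Finset.mem_sdiff.1 hm).2 (Finset.mem_insert_of_mem h)
      have hm' : m ∈ R \ D := Finset.mem_sdiff.2 ⟨hmR, hmD⟩
      rcases Finset.mem_insert.1 hl with rfl | hl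
      · exact hmax m hm'
      · exact hD l hl m hm'
    have hCP := ih (insert a D) hsub hcard hup
    have hgD : ∀ l ∈ D, 0 ≤ g l := fun l hl => (hg l (hDR hl)).le
    have hd : 0 < det (Md g y D) := det_pos g _ D hgD
    have hd' : 0 < det (Md g y (insert a D)) := det_pos g _ _ (fun l hl => (hg l (hsub hl)).le)
    set c := g a / (det (Md g y D) * det (Md g y (insert a D))) with hcdef
    have hc0 : 0 ≤ c := by
      have := hg a haR
      positivity
    have hrow : ∀ p, 0 ≤ bil (adj (Md g y D)) (Yv (y a)) (Zd R g y α β D p)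
        + det (Md g y D) * gam R g y α β a p := fun p =>
      row_nonneg R g y α β D hDR hg hy hα hβ a haR haD (fun l hl => hD l hl a ha)
        (fun l hl => hmax l hl) p
    refine CP.add_rank hCP (fun p => √c * (bil (adj (Md g y D)) (Yv (y a)) (Zd R g y α β D p)
        + det (Md g y D) * gam R g y α β a p)) ?_ ?_
    · intro p
      exact mul_nonneg (Real.sqrt_nonneg _) (hrow p)
    · intro p q
      rw [Cd_step R g y α β D a haR haD hg hDR p q]
      have s : √c * √c = c := Real.mul_self_sqrt hc0
      have e : ∀ A B : ℝ, √c * A * (√c * B) = c * (A * B) := by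
        intro A B
        calc √c * A * (√c * B) = (√c * √c) * (A * B) := by ring
          _ = c * (A * B) := by rw [s]
      rw [e]

/-- the kernel of the proof -/
theorem kernel_CP (hg : ∀ l ∈ R, 0 < g l) (hy : ∀ l ∈ R, 0 ≤ y l)
    (hα : ∀ p, p ∉ R → 0 ≤ α p) (hβ : ∀ p, p ∉ R → 0 ≤ β p) :
    CP (fun p q => jdot (vec R y α β p) (vec R y α β q)
      + ∑ l ∈ R, g l * (gam R g y α β l p * gam R g y α β l q)) := by
  have h := Cd_CP R g y α β hg hy hα hβ (R \ ∅).card ∅ (Finset.empty_subset _) rfl
    (fun l hl => absurd hl (Finset.notMem_empty l))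
  have e : Cd R g y α β ∅ = fun p q => jdot (vec R y α β p) (vec R y α β q)
      + ∑ l ∈ R, g l * (gam R g y α β l p * gam R g y α β l q) := by
    funext p q
    simp only [Cd, Md, addH_empty, Zd_empty, bil_adj_J, det_J, Finset.sdiff_empty]
    ring
  rw [← e]; exact h

end

end Pool.H53.BN
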