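import Pool.Agent.H53.BN.MS

/-!
The half-plane inequality.
-/

set_option autoImplicit false

namespace Pool.H53.BN

noncomputable section

variable {V : Type*} [Fintype V] [DecidableEq V] (G : SimpleGraph V) [DecidableRel G.Adj]

omit [DecidableEq V] in
theorem eSum_le (A B : V → V → ℝ) (h : ∀ i j, i ≠ j → A i j ≤ B i j) : eSum G A ≤ eSum G B := by
  unfold eSum
  apply Finset.sum_le_sum; intro i _
  apply Finset.sum_le_sum; intro j _
  by_cases hij : G.Adj i j
  · simp only [if_pos hij]; exact h i j hij.ne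
  · simp only [if_neg hij]; exact le_rfl

theorem max_sq_le (m : ℝ) : (max m 0) ^ 2 ≤ m ^ 2 := by
  rcases le_total m 0 with h | h
  · rw [max_eq_right h]; nlinarith [sq_nonneg m]
  · rw [max_eq_left h]

theorem max_sq_split (m : ℝ) : m ^ 2 - (max (-m) 0) ^ 2 = (max m 0) ^ 2 := by
  rcases le_total m 0 with h | h
  · rw [max_eq_right h, max_eq_left (by linarith)]; ring
  · rw [max_eq_left h, max_eq_right (by linarith)]; ring

section core

variable (α β : V → ℝ)

/-- far vertices of the extreme one -/
def Rs : Finset V := Finset.univ.filter fun l => α l < 0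

def yy (l : V) : ℝ := -α l / β l

/-- the far mass -/
def Fm (l : V) : ℝ := ∑ p ∈ Finset.univ.filter fun p => ¬ α p < 0,
  (max (-(α p * α l + β p * β l)) 0) ^ 2

def gg (l : V) : ℝ := (β l) ^ 4 / Fm α β l

def ww (i : V) : ℝ := if α i < 0 then (β i) ^ 2 else 1

def kk (p q : V) : ℝ := jdot (vec (Rs α) (yy α β) α β p) (vec (Rs α) (yy α β) α β q)
  + ∑ l ∈ Rs α, gg α β l * (gam (Rs α) (gg α β) (yy α β) α β l p
    * gam (Rs α) (gg α β) (yy α β) α β l q)

variable (hβ : ∀ i, 0 ≤ β i) (hR : ∀ i, α i < 0 → 0 < β i)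
  (hF : ∀ l, α l < 0 → 0 < Fm α β l)

include hR in
omit [DecidableEq V] in
theorem ww_yy (l : V) (hl : α l < 0) : β l * yy α β l = -α l := by
  unfold yy
  have := (hR l hl).ne'
  field_simp

omit [DecidableEq V] in
theorem mem_Rs (l : V) : l ∈ Rs α ↔ α l < 0 := by simp [Rs]

include hR in
theorem ww_jdot (i j : V) :
    ww α β i * ww α β j * jdot (vec (Rs α) (yy α β) α β i) (vec (Rs α) (yy α β) α β j)
      = (α i * α j + β i * β j) ^ 2 := by
  by_cases hi : α i < 0 <;> by_cases hj : α j < 0
  · have hi' := (mem_Rs α i).2 hi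
    have hj' := (mem_Rs α j).2 hj
    have e1 := ww_yy α β hR i hi
    have e2 := ww_yy α β hR j hj
    simp only [ww, vec, if_pos hi, if_pos hj, if_pos hi', if_pos hj', jdot_YY]
    have : β i ^ 2 * β j ^ 2 * (1 + yy α β i * yy α β j) ^ 2
        = (β i * β j + (β i * yy α β i) * (β j * yy α β j)) ^ 2 := by ring
    rw [this, e1, e2]; ring
  · have hi' := (mem_Rs α i).2 hi
    have hj' : j ∉ Rs α := fun h => hj ((mem_Rs α j).1 h)
    have e1 := ww_yy α β hR i hi
    simp only [ww, vec, if_pos hi, if_neg hj, if_pos hi', if_neg hj', jdot_YX]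
    have : β i ^ 2 * 1 * (β j - α j * yy α β i) ^ 2
        = (β i * β j - α j * (β i * yy α β i)) ^ 2 := by ring
    rw [this, e1]; ring
  · have hi' : i ∉ Rs α := fun h => hi ((mem_Rs α i).1 h)
    have hj' := (mem_Rs α j).2 hj
    have e2 := ww_yy α β hR j hj
    simp only [ww, vec, if_neg hi, if_pos hj, if_neg hi', if_pos hj']
    rw [jdot_comm, jdot_YX]
    have : 1 * β j ^ 2 * (β i - α i * yy α β j) ^ 2
        = (β i * β j - α i * (β j * yy α β j)) ^ 2 := by ring
    rw [this, e2]; ring
  · have hi' : i ∉ Rs α := fun h => hi ((mem_Rs α i).1 h)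
    have hj' : j ∉ Rs α := fun h => hj ((mem_Rs α j).1 h)
    simp only [ww, vec, if_neg hi, if_neg hj, if_neg hi', if_neg hj', jdot_XX]; ring

include hR in
theorem ww_gam_out (l i : V) (hl : α l < 0) (hi : ¬ α i < 0) :
    gam (Rs α) (gg α β) (yy α β) α β l i
      = -(max (-(α i * α l + β i * β l)) 0) ^ 2 / (β l) ^ 2 := by
  have hi' : i ∉ Rs α := fun h => hi ((mem_Rs α i).1 h)
  have hil : i ≠ l := fun h => hi (h ▸ hl)
  have e := ww_yy α β hR l hl
  have hb := hR l hl
  simp only [gam, if_neg hil, if_neg hi']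
  have e2 : α i * yy α β l - β i = (-(α i * α l + β i * β l)) / β l := by
    rw [eq_div_iff hb.ne']
    calc (α i * yy α β l - β i) * β l = α i * (β l * yy α β l) - β i * β l := by ring
      _ = _ := by rw [e]; ring
  have e3 : max (-(α i * α l + β i * β l) / β l) 0 = max (-(α i * α l + β i * β l)) 0 / β l := by
    rw [← max_div_div_right hb.le]; simp
  rw [e2, e3, div_pow]; ring

include hR hF in
theorem gg_pos (l : V) (hl : α l < 0) : 0 < gg α β l := by
  unfold gg
  have h1 := hR l hl
  have h2 := hF l hl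
  positivity

include hR hF in
theorem sum_ww_gam (l : V) (hl : α l < 0) :
    ∑ i, ww α β i * gam (Rs α) (gg α β) (yy α β) α β l i = 0 := by
  rw [← Finset.sum_filter_add_sum_filter_not Finset.univ (fun i => α i < 0)]
  have hb := hR l hl
  have hFl := hF l hl
  have s1 : ∑ i ∈ Finset.univ.filter (fun i => α i < 0),
      ww α β i * gam (Rs α) (gg α β) (yy α β) α β l i = Fm α β l / (β l) ^ 2 := by
    rw [Finset.sum_eq_single l]
    · simp only [ww, if_pos hl, gam, if_true, gg]
      have := hb.ne'
      have := hFl.ne'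
      field_simp
    · intro i hi hil
      have h1 := (Finset.mem_filter.1 hi).2
      have h2 := (mem_Rs α i).2 h1
      simp only [gam, if_neg hil, if_pos h2, mul_zero]
    · intro h
      exact absurd (Finset.mem_filter.2 ⟨Finset.mem_univ l, hl⟩) h
  have s2 : ∑ i ∈ Finset.univ.filter (fun i => ¬ α i < 0),
      ww α β i * gam (Rs α) (gg α β) (yy α β) α β l i = -(Fm α β l / (β l) ^ 2) := by
    unfold Fm
    rw [Finset.sum_div, ← Finset.sum_neg_distrib]
    apply Finset.sum_congr rfl
    intro i hi
    have h1 := (Finset.mem_filter.1 hi).2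
    rw [ww_gam_out α β hR l i hl h1]
    simp only [ww, if_neg h1]; ring
  rw [s1, s2]; ring

include hR hF in
theorem total_sum :
    ∑ i, ∑ j, ww α β i * ww α β j * kk α β i j = ∑ i, ∑ j, (α i * α j + β i * β j) ^ 2 := by
  have e : ∀ i j, ww α β i * ww α β j * kk α β i j
      = (α i * α j + β i * β j) ^ 2 + ∑ l ∈ Rs α, gg α β l
        * ((ww α β i * gam (Rs α) (gg α β) (yy α β) α β l i)
          * (ww α β j * gam (Rs α) (gg α β) (yy α β) α β l j)) := by
    intro i j
    unfold kk
    rw [mul_add, ww_jdot α β hR, Finset.mul_sum]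
    congr 1
    apply Finset.sum_congr rfl; intro l _; ring
  simp only [e, Finset.sum_add_distrib]
  have z : ∑ i, ∑ j, ∑ l ∈ Rs α, gg α β l
        * ((ww α β i * gam (Rs α) (gg α β) (yy α β) α β l i)
          * (ww α β j * gam (Rs α) (gg α β) (yy α β) α β l j)) = 0 := by
    apply Finset.sum_eq_zero
    intro i _
    rw [Finset.sum_comm]
    apply Finset.sum_eq_zero
    intro l hl
    rw [← Finset.mul_sum, ← Finset.mul_sum, sum_ww_gam α β hR hF l ((mem_Rs α l).1 hl)]
    ring
  rw [z, add_zero]

include hR hF in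
theorem dominate (i j : V) (hij : i ≠ j) :
    (max (α i * α j + β i * β j) 0) ^ 2 ≤ ww α β i * ww α β j * kk α β i j := by
  unfold kk
  rw [mul_add, ww_jdot α β hR]
  have hw : ∀ p, 0 ≤ ww α β p := by
    intro p; unfold ww; split_ifs <;> positivity
  have hm := max_sq_le (α i * α j + β i * β j)
  -- one vertex in `R`, the other not
  have mixed : ∀ p q : V, ¬ α p < 0 → α q < 0 →
      ww α β p * ww α β q * ∑ l ∈ Rs α, gg α β l * (gam (Rs α) (gg α β) (yy α β) α β l p
        * gam (Rs α) (gg α β) (yy α β) α β l q)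
      = -(max (-(α p * α q + β p * β q)) 0) ^ 2 := by
    intro p q hp hq
    have hq' := (mem_Rs α q).2 hq
    rw [Finset.sum_eq_single q]
    · have hgq := gg_pos α β hR hF q hq
      have hbq := hR q hq
      have e1 : gam (Rs α) (gg α β) (yy α β) α β q q = 1 / gg α β q := by simp [gam]
      rw [e1, ww_gam_out α β hR q p hq hp]
      simp only [ww, if_neg hp, if_pos hq]
      have := hgq.ne'
      have := hbq.ne'
      field_simp
    · intro l _ hlq
      have : gam (Rs α) (gg α β) (yy α β) α β l q = 0 := by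
        simp only [gam, if_neg (Ne.symm hlq), if_pos hq']
      rw [this]; ring
    · intro h; exact absurd hq' h
  by_cases hi : α i < 0 <;> by_cases hj : α j < 0
  · have hi' := (mem_Rs α i).2 hi
    have hj' := (mem_Rs α j).2 hj
    have z : ∑ l ∈ Rs α, gg α β l * (gam (Rs α) (gg α β) (yy α β) α β l i
        * gam (Rs α) (gg α β) (yy α β) α β l j) = 0 := by
      apply Finset.sum_eq_zero
      intro l _
      by_cases hl : i = l
      · have : gam (Rs α) (gg α β) (yy α β) α β l j = 0 := by
          simp only [gam, if_neg (fun h : j = l => hij (hl.trans h.symm)), if_pos hj']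
        rw [this]; ring
      · have : gam (Rs α) (gg α β) (yy α β) α β l i = 0 := by
          simp only [gam, if_neg hl, if_pos hi']
        rw [this]; ring
    rw [z]; linarith
  · have h1 := mixed j i hj hi
    have e : ww α β i * ww α β j * ∑ l ∈ Rs α, gg α β l
          * (gam (Rs α) (gg α β) (yy α β) α β l i * gam (Rs α) (gg α β) (yy α β) α β l j)
        = ww α β j * ww α β i * ∑ l ∈ Rs α, gg α β l
          * (gam (Rs α) (gg α β) (yy α β) α β l j * gam (Rs α) (gg α β) (yy α β) α β l i) := by
      rw [mul_comm (ww α β i)]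
      congr 1
      apply Finset.sum_congr rfl; intro l _; ring
    rw [e, h1]
    have h2 := max_sq_split (α i * α j + β i * β j)
    have e2 : α j * α i + β j * β i = α i * α j + β i * β j := by ring
    rw [e2]; linarith
  · have h1 := mixed i j hi hj
    rw [h1]
    have h2 := max_sq_split (α i * α j + β i * β j)
    linarith
  · have hpos : 0 ≤ ∑ l ∈ Rs α, gg α β l * (gam (Rs α) (gg α β) (yy α β) α β l i
        * gam (Rs α) (gg α β) (yy α β) α β l j) := by
      apply Finset.sum_nonneg
      intro l hl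
      have hl' := (mem_Rs α l).1 hl
      rw [ww_gam_out α β hR l i hl' hi, ww_gam_out α β hR l j hl' hj]
      have h1 := gg_pos α β hR hF l hl'
      have h2 := hR l hl'
      have : -(max (-(α i * α l + β i * β l)) 0) ^ 2 / (β l) ^ 2
          * (-(max (-(α j * α l + β j * β l)) 0) ^ 2 / (β l) ^ 2)
          = (max (-(α i * α l + β i * β l)) 0) ^ 2 / (β l) ^ 2
          * ((max (-(α j * α l + β j * β l)) 0) ^ 2 / (β l) ^ 2) := by ring
      rw [this]; positivity
    have := mul_nonneg (mul_nonneg (hw i) (hw j)) hpos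
    linarith

include hβ hR hF in
theorem core_ineq (r : ℕ) (hr : 1 ≤ r) (hG : G.CliqueFree (r + 1)) :
    eSum G (fun i j => (max (α i * α j + β i * β j) 0) ^ 2)
      ≤ (1 - 1 / (r : ℝ)) * ∑ i, ∑ j, (α i * α j + β i * β j) ^ 2 := by
  have hCP : CP (kk α β) := by
    apply kernel_CP (Rs α) (gg α β) (yy α β) α β
    · intro l hl; exact gg_pos α β hR hF l ((mem_Rs α l).1 hl)
    · intro l hl
      have h1 := (mem_Rs α l).1 hl
      have h2 := hR l h1
      unfold yy
      apply div_nonneg _ h2.le
      linarith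
    · intro p hp
      by_contra h
      push Not at h
      exact hp ((mem_Rs α p).2 h)
    · intro p _; exact hβ p
  have hw : ∀ p, 0 ≤ ww α β p := by
    intro p; unfold ww; split_ifs <;> positivity
  have h1 := CP_good G r hr hG (kk α β) hCP (ww α β) hw
  rw [total_sum α β hR hF] at h1
  exact (eSum_le G _ _ (fun i j hij => dominate α β hR hF i j hij)).trans h1

end core

theorem lemmaL_pos (r : ℕ) (hr : 1 ≤ r) (hG : G.CliqueFree (r + 1)) (x y : V → ℝ)
    (hx : ∀ i, 0 < x i) :
    eSum G (fun i j => (max (x i * x j + y i * y j) 0) ^ 2)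
      ≤ (1 - 1 / (r : ℝ)) * ∑ i, ∑ j, (x i * x j + y i * y j) ^ 2 := by
  rcases isEmpty_or_nonempty V with hV | hV
  · simp [eSum]
  · obtain ⟨o, ho⟩ := Finite.exists_max fun i => y i / x i
    set α : V → ℝ := fun i => x o * x i + y o * y i with hα
    set β : V → ℝ := fun i => x i * y o - y i * x o with hβdef
    have hxo := hx o
    have hS : 0 < x o ^ 2 + y o ^ 2 := by positivity
    have hβ : ∀ i, 0 ≤ β i := by
      intro i
      have h1 := ho i
      rw [div_le_div_iff₀ (hx i) hxo] at h1
      simp only [hβdef]; linarith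
    have hR : ∀ i, α i < 0 → 0 < β i := by
      intro i hi
      rcases (hβ i).lt_or_eq with h | h
      · exact h
      · exfalso
        simp only [hβdef] at h
        simp only [hα] at hi
        have h2 : y i * x o = x i * y o := by linarith
        have h3 : x o * (x o * x i + y o * y i) = x i * (x o ^ 2 + y o ^ 2) := by
          calc x o * (x o * x i + y o * y i) = x o ^ 2 * x i + y o * (y i * x o) := by ring
            _ = _ := by rw [h2]; ring
        have h4 : 0 < x i * (x o ^ 2 + y o ^ 2) := mul_pos (hx i) hS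
        nlinarith
    have hαo : α o = x o ^ 2 + y o ^ 2 := by simp only [hα]; ring
    have hβo : β o = 0 := by simp only [hβdef]; ring
    have hF : ∀ l, α l < 0 → 0 < Fm α β l := by
      intro l hl
      unfold Fm
      apply Finset.sum_pos'
      · intro p _; positivity
      · refine ⟨o, Finset.mem_filter.2 ⟨Finset.mem_univ o, ?_⟩, ?_⟩
        · rw [hαo]; linarith
        · have : 0 < -(α o * α l + β o * β l) := by
            rw [hαo, hβo]
            have := mul_pos hS (neg_pos.2 hl)
            linarith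
          rw [max_eq_left this.le]; positivity
    have h := core_ineq G α β hβ hR hF r hr hG
    have e : ∀ i j, α i * α j + β i * β j = (x o ^ 2 + y o ^ 2) * (x i * x j + y i * y j) := by
      intro i j; simp only [hα, hβdef]; ring
    have e1 : ∀ i j, (max (α i * α j + β i * β j) 0) ^ 2
        = (x o ^ 2 + y o ^ 2) ^ 2 * (max (x i * x j + y i * y j) 0) ^ 2 := by
      intro i j
      rw [e]
      have : max ((x o ^ 2 + y o ^ 2) * (x i * x j + y i * y j)) 0
          = (x o ^ 2 + y o ^ 2) * max (x i * x j + y i * y j) 0 := by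
        rw [mul_max_of_nonneg _ _ hS.le, mul_zero]
      rw [this]; ring
    have e2 : ∀ i j, (α i * α j + β i * β j) ^ 2
        = (x o ^ 2 + y o ^ 2) ^ 2 * (x i * x j + y i * y j) ^ 2 := by
      intro i j; rw [e]; ring
    have e3 : eSum G (fun i j => (max (α i * α j + β i * β j) 0) ^ 2)
        = (x o ^ 2 + y o ^ 2) ^ 2 * eSum G (fun i j => (max (x i * x j + y i * y j) 0) ^ 2) := by
      simp only [eSum, e1, Finset.mul_sum]
      apply Finset.sum_congr rfl; intro i _
      apply Finset.sum_congr rfl; intro j _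
      split_ifs <;> simp
    have e4 : ∑ i, ∑ j, (α i * α j + β i * β j) ^ 2
        = (x o ^ 2 + y o ^ 2) ^ 2 * ∑ i, ∑ j, (x i * x j + y i * y j) ^ 2 := by
      simp only [e2, Finset.mul_sum]
    rw [e3, e4] at h
    have hS2 : 0 < (x o ^ 2 + y o ^ 2) ^ 2 := by positivity
    have h' : (x o ^ 2 + y o ^ 2) ^ 2 * eSum G (fun i j => (max (x i * x j + y i * y j) 0) ^ 2)
        ≤ (x o ^ 2 + y o ^ 2) ^ 2
          * ((1 - 1 / (r : ℝ)) * ∑ i, ∑ j, (x i * x j + y i * y j) ^ 2) := by
      linarith
    exact le_of_mul_le_mul_left h' hS2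

/-- **The half-plane inequality.** -/
theorem lemmaL (r : ℕ) (hr : 1 ≤ r) (hG : G.CliqueFree (r + 1)) (x y : V → ℝ)
    (hx : ∀ i, 0 ≤ x i) :
    eSum G (fun i j => (max (x i * x j + y i * y j) 0) ^ 2)
      ≤ (1 - 1 / (r : ℝ)) * ∑ i, ∑ j, (x i * x j + y i * y j) ^ 2 := by
  set f : ℝ → ℝ := fun ε =>
    eSum G (fun i j => (max ((x i + ε) * (x j + ε) + y i * y j) 0) ^ 2) with hf
  set h : ℝ → ℝ := fun ε =>
    (1 - 1 / (r : ℝ)) * ∑ i, ∑ j, ((x i + ε) * (x j + ε) + y i * y j) ^ 2 with hh
  have cf : Continuous f := by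
    simp only [hf, eSum]
    refine continuous_finset_sum _ fun i _ => continuous_finset_sum _ fun j _ => ?_
    by_cases hij : G.Adj i j
    · simp only [if_pos hij]; fun_prop
    · simp only [if_neg hij]; fun_prop
  have ch : Continuous h := by
    simp only [hh]; fun_prop
  have hle : ∀ ε ∈ Set.Ioi (0 : ℝ), f ε ≤ h ε := by
    intro ε hε
    have hε' : 0 < ε := hε
    exact lemmaL_pos G r hr hG (fun i => x i + ε) y (fun i => by have := hx i; linarith)
  have tf : Filter.Tendsto f (nhdsWithin 0 (Set.Ioi 0)) (nhds (f 0)) :=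
    (cf.tendsto 0).mono_left nhdsWithin_le_nhds
  have th : Filter.Tendsto h (nhdsWithin 0 (Set.Ioi 0)) (nhds (h 0)) :=
    (ch.tendsto 0).mono_left nhdsWithin_le_nhds
  have key : f 0 ≤ h 0 := by
    apply le_of_tendsto_of_tendsto tf th
    filter_upwards [self_mem_nhdsWithin] with ε hε using hle ε hε
  simpa only [hf, hh, add_zero] using key

end

end Pool.H53.BN
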