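import Pool.Agent.H53.BN.Alg

/-!
Positivity of the rows of the triangular factorisation.
-/

set_option autoImplicit false

namespace Pool.H53.BN

noncomputable section

def Yv (y : ℝ) : Ve := ⟨1, y, y ^ 2⟩

def Xv (α β : ℝ) : Ve := ⟨β ^ 2, -(α * β), α ^ 2⟩

theorem jdot_YY (y y' : ℝ) : jdot (Yv y) (Yv y') = (1 + y * y') ^ 2 := by
  simp only [jdot, Yv]; ring

theorem jdot_YX (y α β : ℝ) : jdot (Yv y) (Xv α β) = (β - α * y) ^ 2 := by
  simp only [jdot, Yv, Xv]; ring

theorem jdot_XX (α β α' β' : ℝ) : jdot (Xv α β) (Xv α' β') = (α * α' + β * β') ^ 2 := by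
  simp only [jdot, Xv]; ring

theorem jdot_comm (u v : Ve) : jdot u v = jdot v u := by
  simp only [jdot]; ring

theorem dot_cr_Y (l f a : ℝ) :
    dot (Yv l) (cr (Yv f) (Yv a)) = (a - f) * (l - f) * (l - a) := by
  simp only [dot, cr, Yv]; ring

variable {V : Type*} [DecidableEq V] (g : V → ℝ) (y : V → ℝ)

omit [DecidableEq V] in
/-- first positivity: two vectors `Y` -/
theorem P1 (D : Finset V) (s t : ℝ) (hg : ∀ l ∈ D, 0 ≤ g l) (ht : 0 ≤ t) (hts : t ≤ s)
    (hD : ∀ l ∈ D, s ≤ y l) :
    0 ≤ bil (adj (addH g (fun l => Yv (y l)) J D)) (Yv s) (Yv t) := by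
  apply E_nonneg g _ J D _ _ hg
  · rw [bil_adj_J, jdot_YY]; positivity
  · intro a ha
    have h1 := hD a ha
    have e : bil J (cr (Yv (y a)) (Yv s)) (cr (Yv (y a)) (Yv t))
        = (y a - s) * (y a - t) * ((y a) ^ 2 * (s * t) + 1 / 2 * ((y a + s) * (y a + t)) + 1) := by
      simp only [bil, J, cr, Yv]; ring
    rw [e]
    have h2 : 0 ≤ s := le_trans ht hts
    have h3 : 0 ≤ y a := le_trans h2 h1
    have h4 : 0 ≤ y a - s := by linarith
    have h5 : 0 ≤ y a - t := by linarith
    positivity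
  · intro a ha b hb
    have h1 := hD a ha
    have h2 := hD b hb
    rw [dot_cr_Y, dot_cr_Y]
    have e : (s - y a) * (y b - y a) * (y b - s) * ((t - y a) * (y b - y a) * (y b - t))
        = (y b - y a) ^ 2 * ((y a - s) * (y b - s)) * ((y a - t) * (y b - t)) := by ring
    rw [e]
    have h4 : 0 ≤ y a - s := by linarith
    have h5 : 0 ≤ y a - t := by linarith
    have h6 : 0 ≤ y b - s := by linarith
    have h7 : 0 ≤ y b - t := by linarith
    positivity

omit [DecidableEq V] in
/-- the inner estimate over the far vertices -/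
theorem Q_nonneg (F : Finset V) (α β s a : ℝ) (hg : ∀ l ∈ F, 0 ≤ g l) (hα : 0 ≤ α)
    (hs : 0 ≤ s) (hsa : s ≤ a) (ha : α * a ≤ β) (hF : ∀ l ∈ F, β < α * y l) :
    0 ≤ bil (adj (addH g (fun l => Yv (y l)) J F)) (Yv a) (Yv a) * (β - α * s) ^ 2
      - bil (adj (addH g (fun l => Yv (y l)) J F)) (Yv s) (Yv a) * (β - α * a) ^ 2 := by
  set p := β - α * s with hp
  set q := β - α * a with hq
  have hq0 : 0 ≤ q := by simp only [hq]; linarith
  have hpq : q ≤ p := by
    have := mul_le_mul_of_nonneg_left hsa hα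
    simp only [hq, hp]; linarith
  have hp0 : 0 ≤ p := le_trans hq0 hpq
  have ha0 : 0 ≤ a := le_trans hs hsa
  have hfa : ∀ l ∈ F, a ≤ y l := by
    intro l hl
    by_contra hcon
    push Not at hcon
    have h1 := hF l hl
    have h2 : α * y l ≤ α * a := mul_le_mul_of_nonneg_left hcon.le hα
    linarith
  have key : ∀ l ∈ F, (y l - s) * q ≤ (y l - a) * p := by
    intro l hl
    have h1 := hF l hl
    have : (y l - a) * p - (y l - s) * q = (α * y l - β) * (a - s) := by
      simp only [hp, hq]; ring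
    have h2 : 0 ≤ (α * y l - β) * (a - s) := mul_nonneg (by linarith) (by linarith)
    linarith
  set v : Ve := ⟨p ^ 2 - q ^ 2, p ^ 2 * a - q ^ 2 * s, p ^ 2 * a ^ 2 - q ^ 2 * s ^ 2⟩ with hv
  have main : 0 ≤ bil (adj (addH g (fun l => Yv (y l)) J F)) (Yv a) v := by
    apply E_nonneg g _ J F _ _ hg
    · rw [bil_adj_J]
      have e : jdot (Yv a) v = (1 + a * a) ^ 2 * p ^ 2 - (1 + a * s) ^ 2 * q ^ 2 := by
        simp only [jdot, Yv, hv]; ring
      rw [e]
      have h1 : (1 + a * s) * q ≤ (1 + a * a) * p := by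
        apply mul_le_mul _ hpq hq0 (by positivity)
        nlinarith
      have h2 : 0 ≤ (1 + a * s) * q := by positivity
      nlinarith
    · intro l hl
      have h1 := hfa l hl
      have h2 := key l hl
      have e : bil J (cr (Yv (y l)) (Yv a)) (cr (Yv (y l)) v)
          = p ^ 2 * (y l - a) ^ 2 * ((y l) ^ 2 * (a * a) + 1 / 2 * ((y l + a) * (y l + a)) + 1)
            - q ^ 2 * ((y l - a) * (y l - s))
              * ((y l) ^ 2 * (a * s) + 1 / 2 * ((y l + a) * (y l + s)) + 1) := by
        simp only [bil, J, cr, Yv, hv]; ring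
      rw [e]
      set f := y l
      have hf0 : 0 ≤ f := le_trans ha0 h1
      have hfa' : 0 ≤ f - a := by linarith
      have hfs' : 0 ≤ f - s := by linarith
      have hA : f ^ 2 * (a * s) + 1 / 2 * ((f + a) * (f + s)) + 1
          ≤ f ^ 2 * (a * a) + 1 / 2 * ((f + a) * (f + a)) + 1 := by
        have h3 : a * s ≤ a * a := mul_le_mul_of_nonneg_left hsa ha0
        have h4 : (f + a) * (f + s) ≤ (f + a) * (f + a) :=
          mul_le_mul_of_nonneg_left (by linarith) (by positivity)
        have h5 : f ^ 2 * (a * s) ≤ f ^ 2 * (a * a) := mul_le_mul_of_nonneg_left h3 (by positivity)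
        linarith
      have hA0 : 0 ≤ f ^ 2 * (a * s) + 1 / 2 * ((f + a) * (f + s)) + 1 := by positivity
      have hB : q ^ 2 * ((f - a) * (f - s)) ≤ p ^ 2 * (f - a) ^ 2 := by
        have h3 : (f - s) * q * ((f - s) * q) ≤ (f - a) * p * ((f - a) * p) :=
          mul_le_mul h2 h2 (by positivity) (by positivity)
        have h4 : (f - a) * (f - s) ≤ (f - s) * (f - s) :=
          mul_le_mul_of_nonneg_right (by linarith) hfs'
        have h5 : q ^ 2 * ((f - a) * (f - s)) ≤ q ^ 2 * ((f - s) * (f - s)) :=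
          mul_le_mul_of_nonneg_left h4 (by positivity)
        nlinarith
      have hB0 : 0 ≤ q ^ 2 * ((f - a) * (f - s)) := by positivity
      have := mul_le_mul hB hA hA0 (by positivity)
      linarith
    · intro f hf l hl
      have h1 := hfa f hf
      have h2 := hfa l hl
      have k1 := key f hf
      have k2 := key l hl
      have e : dot (Yv (y l)) (cr (Yv (y f)) (Yv a)) * dot (Yv (y l)) (cr (Yv (y f)) v)
          = (y l - y f) ^ 2 * ((y f - a) * (y l - a))
            * (p ^ 2 * ((y f - a) * (y l - a)) - q ^ 2 * ((y f - s) * (y l - s))) := by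
        simp only [dot, cr, Yv, hv]; ring
      rw [e]
      have h3 : 0 ≤ y f - a := by linarith
      have h4 : 0 ≤ y l - a := by linarith
      have h5 : 0 ≤ y f - s := by linarith
      have h6 : 0 ≤ y l - s := by linarith
      have h7 : (y f - s) * q * ((y l - s) * q) ≤ (y f - a) * p * ((y l - a) * p) :=
        mul_le_mul k1 k2 (by positivity) (by positivity)
      have h8 : 0 ≤ p ^ 2 * ((y f - a) * (y l - a)) - q ^ 2 * ((y f - s) * (y l - s)) := by
        nlinarith
      positivity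
  have e : bil (adj (addH g (fun l => Yv (y l)) J F)) (Yv a) v
      = bil (adj (addH g (fun l => Yv (y l)) J F)) (Yv a) (Yv a) * p ^ 2
      - bil (adj (addH g (fun l => Yv (y l)) J F)) (Yv s) (Yv a) * q ^ 2 := by
    generalize adj (addH g (fun l => Yv (y l)) J F) = A
    simp only [bil, Yv, hv]; ring
  rw [← e]; exact main

/-- `mulv (addH J F) (Jv X)` explicitly tested against a covector -/
theorem dot_mulv_addH (F : Finset V) (X w : Ve) :
    dot w (mulv (addH g (fun l => Yv (y l)) J F) (Jv X))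
      = dot w X + ∑ l ∈ F, g l * (jdot (Yv (y l)) X * dot (Yv (y l)) w) := by
  induction F using Finset.induction_on with
  | empty => simp only [addH_empty, mulv_J, Finset.sum_empty, add_zero]
  | insert a s ha ih =>
    rw [addH_insert _ _ _ _ _ ha, mulv_upd, Finset.sum_insert ha]
    have : ∀ (u v : Ve) (t : ℝ), dot w (lin u t v) = dot w u + t * dot w v := by
      intro u v t; simp only [dot, lin]; ring
    rw [this, ih, dot_Jv]
    have h2 : dot w (Yv (y a)) = dot (Yv (y a)) w := by simp only [dot]; ring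
    rw [h2]; ring

/-- second positivity: the row of a far vertex against a vertex on the left -/
theorem P2 (F N : Finset V) (hFN : Disjoint F N) (α β s : ℝ) (hg : ∀ l ∈ F ∪ N, 0 ≤ g l)
    (hα : 0 ≤ α) (hβ : 0 ≤ β) (hs : 0 ≤ s) (hF : ∀ l ∈ F, β < α * y l)
    (hN : ∀ l ∈ N, α * y l ≤ β) (hNs : ∀ l ∈ N, s ≤ y l) :
    0 ≤ bil (adj (addH g (fun l => Yv (y l)) J (F ∪ N))) (Yv s)
      (mulv (addH g (fun l => Yv (y l)) J F) (Jv (Xv α β))) := by
  rw [addH_union _ _ _ _ _ hFN]
  set M := addH g (fun l => Yv (y l)) J F with hM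
  have hgF : ∀ l ∈ F, 0 ≤ g l := fun l hl => hg l (Finset.mem_union_left _ hl)
  have hgN : ∀ l ∈ N, 0 ≤ g l := fun l hl => hg l (Finset.mem_union_right _ hl)
  apply E_nonneg g _ M N _ _ hgN
  · rw [bil_adj_mulv, dot_Jv, jdot_YX]
    exact mul_nonneg (det_pos g _ F hgF).le (sq_nonneg _)
  · intro a ha
    rw [bil_cr_mulv, dot_Jv, dot_Jv, jdot_YX, jdot_YX]
    exact Q_nonneg g y F α β s (y a) hgF hα hs (hNs a ha) (hN a ha) hF
  · intro a ha b hb
    have h1 := hNs a ha
    have h2 := hNs b hb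
    have h3 := hN a ha
    have h4 := hN b hb
    have e1 : dot (Yv (y b)) (cr (Yv (y a)) (mulv M (Jv (Xv α β))))
        = dot (cr (Yv (y b)) (Yv (y a))) (mulv M (Jv (Xv α β))) := by
      generalize mulv M (Jv (Xv α β)) = w
      simp only [dot, cr]; ring
    rw [e1, hM, dot_mulv_addH, dot_cr_Y]
    have e2 : dot (cr (Yv (y b)) (Yv (y a))) (Xv α β)
        = (y a - y b) * (y a * y b * β ^ 2 + (y a + y b) * (α * β) + α ^ 2) := by
      simp only [dot, cr, Yv, Xv]; ring
    have e3 : ∀ l ∈ F, g l * (jdot (Yv (y l)) (Xv α β) * dot (Yv (y l)) (cr (Yv (y b)) (Yv (y a))))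
        = (y a - y b) * (g l * (jdot (Yv (y l)) (Xv α β) * ((y l - y a) * (y l - y b)))) := by
      intro l _
      rw [dot_cr_Y]; ring
    rw [Finset.sum_congr rfl e3, ← Finset.mul_sum, e2]
    have h5 : 0 ≤ y a - s := by linarith
    have h6 : 0 ≤ y b - s := by linarith
    have h7 : 0 ≤ y a := by linarith
    have h8 : 0 ≤ y b := by linarith
    have hfa : ∀ l ∈ F, ∀ c : ℝ, α * c ≤ β → 0 ≤ y l - c := by
      intro l hl c hc
      by_contra hcon
      push Not at hcon
      have := hF l hl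
      have h9 : α * y l ≤ α * c := mul_le_mul_of_nonneg_left (by linarith) hα
      linarith
    have h9 : 0 ≤ ∑ l ∈ F, g l * (jdot (Yv (y l)) (Xv α β) * ((y l - y a) * (y l - y b))) := by
      apply Finset.sum_nonneg
      intro l hl
      rw [jdot_YX]
      exact mul_nonneg (hgF l hl) (mul_nonneg (sq_nonneg _)
        (mul_nonneg (hfa l hl _ h3) (hfa l hl _ h4)))
    have h10 : 0 ≤ y a * y b * β ^ 2 + (y a + y b) * (α * β) + α ^ 2 := by positivity
    set S := ∑ l ∈ F, g l * (jdot (Yv (y l)) (Xv α β) * ((y l - y a) * (y l - y b)))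
    set W := y a * y b * β ^ 2 + (y a + y b) * (α * β) + α ^ 2
    have e4 : (s - y a) * (y b - y a) * (y b - s) * ((y a - y b) * W + (y a - y b) * S)
        = (y a - y b) ^ 2 * ((y a - s) * (y b - s)) * (W + S) := by ring
    rw [e4]
    positivity

end

end Pool.H53.BN
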