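import Pool.Agent.H53.BN.LemmaL

/-!
From the half-plane inequality to the two largest eigenvalues.
-/

set_option autoImplicit false

namespace Pool.H53.BN

noncomputable section

variable {V : Type*} [Fintype V] [DecidableEq V] (G : SimpleGraph V) [DecidableRel G.Adj]

omit [DecidableEq V] in
theorem eSum_cauchy (M : V → V → ℝ) :
    (eSum G M) ^ 2 ≤ eSum G (fun _ _ => 1) * eSum G (fun a b => M a b ^ 2) := by
  have h := Finset.sum_mul_sq_le_sq_mul_sq (Finset.univ : Finset (V × V))
    (fun p => if G.Adj p.1 p.2 then (1 : ℝ) else 0)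
    (fun p => if G.Adj p.1 p.2 then M p.1 p.2 else 0)
  have e1 : ∑ p : V × V, (if G.Adj p.1 p.2 then (1 : ℝ) else 0)
      * (if G.Adj p.1 p.2 then M p.1 p.2 else 0) = eSum G M := by
    unfold eSum
    rw [← Finset.univ_product_univ, Finset.sum_product]
    apply Finset.sum_congr rfl; intro a _
    apply Finset.sum_congr rfl; intro b _
    split_ifs <;> simp
  have e2 : ∑ p : V × V, (if G.Adj p.1 p.2 then (1 : ℝ) else 0) ^ 2 = eSum G (fun _ _ => 1) := by
    unfold eSum
    rw [← Finset.univ_product_univ, Finset.sum_product]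
    apply Finset.sum_congr rfl; intro a _
    apply Finset.sum_congr rfl; intro b _
    split_ifs <;> simp
  have e3 : ∑ p : V × V, (if G.Adj p.1 p.2 then M p.1 p.2 else 0) ^ 2
      = eSum G (fun a b => M a b ^ 2) := by
    unfold eSum
    rw [← Finset.univ_product_univ, Finset.sum_product]
    apply Finset.sum_congr rfl; intro a _
    apply Finset.sum_congr rfl; intro b _
    split_ifs <;> simp
  rw [e1, e2, e3] at h
  exact h

theorem eSum_one : eSum G (fun _ _ => 1) = 2 * (G.edgeFinset.card : ℝ) := by
  have h := G.sum_degrees_eq_twice_card_edges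
  have : ∑ v, (G.degree v : ℝ) = 2 * (G.edgeFinset.card : ℝ) := by exact_mod_cast h
  rw [← this]
  unfold eSum
  apply Finset.sum_congr rfl; intro a _
  rw [← G.card_neighborFinset_eq_degree a, G.neighborFinset_eq_filter]
  simp

/-- the quadratic form of the adjacency matrix -/
def qf (v : V → ℝ) : ℝ := eSum G (fun a b => v a * v b)

omit [DecidableEq V] in
theorem eSum_bilin (v w : V → ℝ) :
    eSum G (fun a b => v a * w b) = v ⬝ᵥ ((G.adjMatrix ℝ).mulVec w) := by
  unfold eSum
  simp only [dotProduct, Matrix.mulVec, SimpleGraph.adjMatrix_apply, Finset.mul_sum]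
  apply Finset.sum_congr rfl; intro a _
  apply Finset.sum_congr rfl; intro b _
  split_ifs <;> simp

omit [DecidableEq V] in
theorem qf_abs (v : V → ℝ) : qf G v ≤ qf G (fun a => |v a|) := by
  unfold qf eSum
  apply Finset.sum_le_sum; intro a _
  apply Finset.sum_le_sum; intro b _
  split_ifs
  · change v a * v b ≤ |v a| * |v b|
    rw [← abs_mul]; exact le_abs_self _
  · exact le_rfl

/-- main deduction from two orthonormal test vectors -/
theorem two_vectors (r : ℕ) (hr : 1 ≤ r) (hG : G.CliqueFree (r + 1)) (x y : V → ℝ) (lam mu : ℝ)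
    (hx : ∀ a, 0 ≤ x a) (hxx : ∑ a, x a ^ 2 = 1) (hyy : ∑ a, y a ^ 2 = 1)
    (hxy : ∑ a, x a * y a = 0) (hmu : 0 ≤ mu) (hlam : 0 ≤ lam)
    (hqx : lam ≤ qf G x) (hqy : mu ≤ qf G y) :
    lam ^ 2 + mu ^ 2 ≤ 2 * (1 - 1 / (r : ℝ)) * (G.edgeFinset.card : ℝ) := by
  set X : V → ℝ := fun a => √lam * x a with hX
  set Y : V → ℝ := fun a => √mu * y a with hY
  have hsl : √lam * √lam = lam := Real.mul_self_sqrt hlam
  have hsm : √mu * √mu = mu := Real.mul_self_sqrt hmu
  have hM : ∀ a b, X a * X b + Y a * Y b = lam * (x a * x b) + mu * (y a * y b) := by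
    intro a b
    simp only [hX, hY]
    calc √lam * x a * (√lam * x b) + √mu * y a * (√mu * y b)
        = (√lam * √lam) * (x a * x b) + (√mu * √mu) * (y a * y b) := by ring
      _ = _ := by rw [hsl, hsm]
  have hL := lemmaL G r hr hG X Y (fun a => mul_nonneg (Real.sqrt_nonneg _) (hx a))
  have e1 : ∑ a, ∑ b, (X a * X b + Y a * Y b) ^ 2 = lam ^ 2 + mu ^ 2 := by
    simp only [hM]
    have : ∀ a b, (lam * (x a * x b) + mu * (y a * y b)) ^ 2
        = lam ^ 2 * (x a ^ 2 * x b ^ 2) + 2 * lam * mu * ((x a * y a) * (x b * y b))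
          + mu ^ 2 * (y a ^ 2 * y b ^ 2) := by intro a b; ring
    simp only [this, Finset.sum_add_distrib, ← Finset.mul_sum, ← Finset.sum_mul, hxx, hyy, hxy]
    ring
  rw [e1] at hL
  have e2 : lam ^ 2 + mu ^ 2 ≤ eSum G (fun a b => X a * X b + Y a * Y b) := by
    have : eSum G (fun a b => X a * X b + Y a * Y b) = lam * qf G x + mu * qf G y := by
      simp only [hM, qf, eSum, Finset.mul_sum, ← Finset.sum_add_distrib]
      apply Finset.sum_congr rfl; intro a _
      apply Finset.sum_congr rfl; intro b _
      split_ifs <;> ring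
    rw [this]
    nlinarith [mul_le_mul_of_nonneg_left hqx hlam, mul_le_mul_of_nonneg_left hqy hmu]
  have e3 : eSum G (fun a b => X a * X b + Y a * Y b)
      ≤ eSum G (fun a b => max (X a * X b + Y a * Y b) 0) :=
    eSum_le G _ _ (fun a b _ => le_max_left _ _)
  have e4 := eSum_cauchy G (fun a b => max (X a * X b + Y a * Y b) 0)
  rw [eSum_one] at e4
  set T := lam ^ 2 + mu ^ 2 with hT
  have hT0 : 0 ≤ T := by positivity
  set E := eSum G (fun a b => max (X a * X b + Y a * Y b) 0)
  have hTE : T ≤ E := e2.trans e3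
  have hm : (0 : ℝ) ≤ 2 * (G.edgeFinset.card : ℝ) := by positivity
  have hrho : (0 : ℝ) ≤ 1 - 1 / (r : ℝ) := by
    have : (1 : ℝ) ≤ r := by exact_mod_cast hr
    have : 1 / (r : ℝ) ≤ 1 := by
      rw [div_le_one (by linarith)]; exact this
    linarith
  have h5 : T ^ 2 ≤ 2 * (G.edgeFinset.card : ℝ) * ((1 - 1 / (r : ℝ)) * T) := by
    calc T ^ 2 ≤ E ^ 2 := by nlinarith
      _ ≤ _ := e4
      _ ≤ _ := mul_le_mul_of_nonneg_left hL hm
  rcases hT0.lt_or_eq with h | h
  · have h6 : T * T ≤ (2 * (1 - 1 / (r : ℝ)) * (G.edgeFinset.card : ℝ)) * T := by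
      calc T * T = T ^ 2 := by ring
        _ ≤ _ := h5
        _ = _ := by ring
    exact le_of_mul_le_mul_right h6 h
  · rw [← h]; positivity

theorem main (r : ℕ) (hr : 1 ≤ r) (hG : G.CliqueFree (r + 1)) (hcard : r + 1 ≤ Fintype.card V)
    (hA : (G.adjMatrix ℝ).IsHermitian) (i j : V) (hij : i ≠ j)
    (hji : hA.eigenvalues j ≤ hA.eigenvalues i)
    (hmax : ∀ k, k ≠ i → hA.eigenvalues k ≤ hA.eigenvalues j) :
    hA.eigenvalues i ^ 2 + hA.eigenvalues j ^ 2
      ≤ 2 * (1 - 1 / (r : ℝ)) * (G.edgeFinset.card : ℝ) := by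
  set φ := hA.eigenvectorBasis with hφ
  have orth : ∀ k l, ∑ a, φ k a * φ l a = if k = l then 1 else 0 := by
    intro k l
    have h := (orthonormal_iff_ite.1 φ.orthonormal) k l
    rw [← h]
    simp only [PiLp.inner_apply, RCLike.inner_apply, conj_trivial]
    apply Finset.sum_congr rfl; intro a _; ring
  have eig : ∀ k, (G.adjMatrix ℝ).mulVec (fun a => φ k a)
      = fun a => hA.eigenvalues k * φ k a := by
    intro k
    have h := hA.mulVec_eigenvectorBasis k
    ext a
    have h2 := congrFun h a
    simpa using h2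
  -- bilinear form on eigenvectors
  have qkl : ∀ k l, eSum G (fun a b => φ k a * φ l b) = if k = l then hA.eigenvalues l else 0 := by
    intro k l
    rw [eSum_bilin, eig]
    simp only [dotProduct]
    have : ∑ a, φ k a * (hA.eigenvalues l * φ l a)
        = hA.eigenvalues l * ∑ a, φ k a * φ l a := by
      rw [Finset.mul_sum]; apply Finset.sum_congr rfl; intro a _; ring
    rw [this, orth]
    split_ifs <;> simp
  have qlin : ∀ s t : ℝ, ∀ k l, k ≠ l → qf G (fun a => s * φ k a + t * φ l a)
      = s ^ 2 * hA.eigenvalues k + t ^ 2 * hA.eigenvalues l := by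
    intro s t k l hkl
    have e : qf G (fun a => s * φ k a + t * φ l a)
        = s ^ 2 * eSum G (fun a b => φ k a * φ k b) + s * t * eSum G (fun a b => φ k a * φ l b)
          + s * t * eSum G (fun a b => φ l a * φ k b)
          + t ^ 2 * eSum G (fun a b => φ l a * φ l b) := by
      simp only [qf, eSum, Finset.mul_sum, ← Finset.sum_add_distrib]
      apply Finset.sum_congr rfl; intro a _
      apply Finset.sum_congr rfl; intro b _
      split_ifs <;> ring
    rw [e, qkl, qkl, qkl, qkl]
    simp [hkl, Ne.symm hkl]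
  -- the second eigenvalue is nonnegative
  have hmu : 0 ≤ hA.eigenvalues j := by
    obtain ⟨a, b, hab, hnadj⟩ : ∃ a b : V, a ≠ b ∧ ¬ G.Adj a b := by
      by_contra hcon
      push Not at hcon
      obtain ⟨T, _, hT⟩ := Finset.exists_subset_card_eq (s := (Finset.univ : Finset V))
        (n := r + 1) (by rw [Finset.card_univ]; exact hcard)
      apply hG T
      rw [SimpleGraph.isNClique_iff]
      exact ⟨fun u _ v _ huv => hcon u v huv, hT⟩
    -- a vector supported on `{a, b}` orthogonal to `φ i`
    obtain ⟨s, t, hst, hort⟩ : ∃ s t : ℝ, (s ≠ 0 ∨ t ≠ 0) ∧ s * φ i a + t * φ i b = 0 := by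
      by_cases h : φ i a = 0
      · exact ⟨1, 0, Or.inl one_ne_zero, by rw [h]; ring⟩
      · exact ⟨φ i b, -φ i a, Or.inr (neg_ne_zero.2 h), by ring⟩
    set v : V → ℝ := fun c => (if c = a then s else 0) + (if c = b then t else 0) with hv
    have hvs : ∀ f : V → ℝ, ∑ c, v c * f c = s * f a + t * f b := by
      intro f
      simp only [hv, add_mul, Finset.sum_add_distrib, ite_mul, zero_mul, Finset.sum_ite_eq',
        Finset.mem_univ, if_true]
    have hqv : qf G v = 0 := by
      have e : qf G v = ∑ c, v c * ∑ d, v d * (if G.Adj c d then (1 : ℝ) else 0) := by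
        simp only [qf, eSum, Finset.mul_sum]
        apply Finset.sum_congr rfl; intro c _
        apply Finset.sum_congr rfl; intro d _
        split_ifs <;> ring
      rw [e]
      simp only [hvs]
      have hnadj' : ¬ G.Adj b a := fun h => hnadj h.symm
      simp [hnadj, hnadj']
    -- spectral decomposition
    set w : EuclideanSpace ℝ V := WithLp.toLp 2 v with hw
    set c : V → ℝ := fun k => ∑ d, φ k d * v d with hc
    have hci : c i = 0 := by
      have : c i = ∑ d, v d * φ i d := by
        simp only [hc]; apply Finset.sum_congr rfl; intro d _; ring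
      rw [this, hvs]; exact hort
    have inner_eq : ∀ (u : EuclideanSpace ℝ V) (k : V), inner ℝ (φ k) u = ∑ d, φ k d * u d := by
      intro u k
      simp only [PiLp.inner_apply, RCLike.inner_apply, conj_trivial]
      apply Finset.sum_congr rfl; intro d _; ring
    have pars : ∀ u : EuclideanSpace ℝ V, ∑ d, v d * u d = ∑ k, c k * ∑ d, φ k d * u d := by
      intro u
      have h := φ.sum_inner_mul_inner w u
      have h2 : inner ℝ w u = ∑ d, v d * u d := by
        simp only [PiLp.inner_apply, RCLike.inner_apply, conj_trivial, hw]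
        apply Finset.sum_congr rfl; intro d _; ring
      rw [← h2, ← h]
      apply Finset.sum_congr rfl; intro k _
      rw [inner_eq, real_inner_comm, inner_eq]
    have hnorm : ∑ d, v d * v d = ∑ k, c k * c k := by
      have := pars w
      simpa only [hw, hc] using this
    have hq : qf G v = ∑ k, hA.eigenvalues k * (c k * c k) := by
      have h1 : qf G v = ∑ d, v d * ((G.adjMatrix ℝ).mulVec v) d := by
        unfold qf; rw [eSum_bilin]; rfl
      have h2 := pars (WithLp.toLp 2 ((G.adjMatrix ℝ).mulVec v))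
      rw [h1]
      have h3 : ∑ d, v d * ((G.adjMatrix ℝ).mulVec v) d
          = ∑ k, c k * ∑ d, φ k d * ((G.adjMatrix ℝ).mulVec v) d := by simpa using h2
      rw [h3]
      apply Finset.sum_congr rfl; intro k _
      have h4 : ∑ d, φ k d * ((G.adjMatrix ℝ).mulVec v) d = hA.eigenvalues k * c k := by
        have h5 : ∑ d, φ k d * ((G.adjMatrix ℝ).mulVec v) d
            = eSum G (fun a b => φ k a * v b) := by rw [eSum_bilin]; rfl
        have h6 : eSum G (fun a b => φ k a * v b) = eSum G (fun a b => v a * φ k b) := by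
          unfold eSum
          rw [Finset.sum_comm]
          apply Finset.sum_congr rfl; intro a _
          apply Finset.sum_congr rfl; intro b _
          by_cases hh : G.Adj a b
          · rw [if_pos hh, if_pos hh.symm]; ring
          · rw [if_neg hh, if_neg fun h => hh h.symm]
        rw [h5, h6, eSum_bilin, eig]
        simp only [dotProduct, hc, Finset.mul_sum]
        apply Finset.sum_congr rfl; intro d _; ring
      rw [h4]; ring
    by_contra hneg
    push Not at hneg
    have hpos : 0 < ∑ d, v d * v d := by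
      rw [hvs]
      have hva : v a = s := by simp [hv, hab]
      have hvb : v b = t := by simp [hv, Ne.symm hab]
      rw [hva, hvb]
      rcases hst with h | h
      · have := mul_self_pos.2 h; nlinarith [mul_self_nonneg t]
      · have := mul_self_pos.2 h; nlinarith [mul_self_nonneg s]
    have hle : ∑ k, hA.eigenvalues k * (c k * c k) ≤ ∑ k, hA.eigenvalues j * (c k * c k) := by
      apply Finset.sum_le_sum
      intro k _
      by_cases hk : k = i
      · rw [hk, hci]; simp
      · exact mul_le_mul_of_nonneg_right (hmax k hk) (mul_self_nonneg _)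
    rw [← hq, hqv, ← Finset.mul_sum, ← hnorm] at hle
    nlinarith
  have hlam : 0 ≤ hA.eigenvalues i := hmu.trans hji
  -- the nonnegative first test vector
  set x : V → ℝ := fun a => |φ i a| with hx
  have hxx : ∑ a, x a ^ 2 = 1 := by
    have := orth i i
    simp only [if_true] at this
    rw [← this]
    apply Finset.sum_congr rfl; intro a _
    simp only [hx, sq_abs]; ring
  have hqx : hA.eigenvalues i ≤ qf G x := by
    have h := qf_abs G (fun a => φ i a)
    have h2 := qkl i i
    simp only [if_true] at h2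
    have h3 : qf G (fun a => φ i a) = hA.eigenvalues i := h2
    rw [h3] at h
    exact h
  set ci := ∑ a, x a * φ i a with hci
  set cj := ∑ a, x a * φ j a with hcj
  by_cases hc : ci ^ 2 + cj ^ 2 = 0
  · have hcj0 : cj = 0 := by nlinarith [sq_nonneg ci, sq_nonneg cj]
    refine two_vectors G r hr hG x (fun a => φ j a) _ _ (fun a => abs_nonneg _) hxx ?_ hcj0
      hmu hlam hqx ?_
    · have := orth j j
      simp only [if_true] at this
      rw [← this]
      apply Finset.sum_congr rfl; intro a _; ring
    · have h2 := qkl j j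
      simp only [if_true] at h2
      exact h2.ge
  · have hpos : 0 < ci ^ 2 + cj ^ 2 := lt_of_le_of_ne (by positivity) (Ne.symm hc)
    set N := √(ci ^ 2 + cj ^ 2) with hN
    have hN2 : N ^ 2 = ci ^ 2 + cj ^ 2 := Real.sq_sqrt hpos.le
    have hN0 : 0 < N := Real.sqrt_pos.2 hpos
    refine two_vectors G r hr hG x (fun a => cj / N * φ i a + (-ci / N) * φ j a) _ _
      (fun a => abs_nonneg _) hxx ?_ ?_ hmu hlam hqx ?_
    · have e : ∀ a, (cj / N * φ i a + (-ci / N) * φ j a) ^ 2
          = (cj / N) ^ 2 * (φ i a * φ i a) + 2 * (cj / N) * (-ci / N) * (φ i a * φ j a)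
            + (-ci / N) ^ 2 * (φ j a * φ j a) := by intro a; ring
      simp only [e, Finset.sum_add_distrib, ← Finset.mul_sum, orth, if_true, if_neg hij]
      rw [div_pow, div_pow, hN2]
      field_simp
      ring
    · have e : ∀ a, x a * (cj / N * φ i a + (-ci / N) * φ j a)
          = cj / N * (x a * φ i a) + (-ci / N) * (x a * φ j a) := by intro a; ring
      simp only [e, Finset.sum_add_distrib, ← Finset.mul_sum]
      rw [← hci, ← hcj]; ring
    · rw [qlin _ _ i j hij, div_pow, div_pow, hN2]
      have e : cj ^ 2 / (ci ^ 2 + cj ^ 2) * hA.eigenvalues i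
          + (-ci) ^ 2 / (ci ^ 2 + cj ^ 2) * hA.eigenvalues j
          = (cj ^ 2 * hA.eigenvalues i + ci ^ 2 * hA.eigenvalues j) / (ci ^ 2 + cj ^ 2) := by
        field_simp
      rw [e, le_div_iff₀ hpos]
      nlinarith [mul_le_mul_of_nonneg_left hji (sq_nonneg cj)]

end

end Pool.H53.BN
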